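import Pool.Agent.H21.SR.Params

/-!
# Resolution size and width in the direction of SETH, with savings of the optimal order up to logs

Some unsatisfiable `k`-CNF formulas on `n` variables need width `(1 - ε) n`, regular resolution
refutations of size `2 ^ ((1 - ε) n)`, and arbitrary resolution refutations of size
`(3 / 2) ^ n / 2 ^ (ε n)`, where `ε = O((log k) ^ 4 / k)`; with a trade-off in between.
-/

open Finset Pool.Agent.H73.Xor Pool.Agent.H21.SR

namespace Pool.Agent.Results.MP_c62aed_lc.ResolutionSETH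

/-- On every path from the root, at most `d` variables are resolved on more than once. -/
def AlmostRegular {n N : ℕ} {F : CNF n} (π : Refutation F N) (d : ℝ) : Prop :=
  ∀ (t : Fin N) (l : List (Fin n)), π.Path π.root t l →
    ((univ.filter fun i => 2 ≤ l.count i).card : ℝ) ≤ d

/-- the loss in the exponents -/
noncomputable def eps (k : ℕ) : ℝ := 150 * Real.logb 2 k ^ 4 / k

lemma eps_nonneg (k : ℕ) : 0 ≤ eps k := by
  unfold eps
  positivity

lemma trivial_range {k : ℕ} (hk2 : 2 ≤ k) (hk : k < 2 ^ 20) : 1 ≤ eps k := by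
  have hkR : (2 : ℝ) ≤ k := by exact_mod_cast hk2
  have hkpos : (0 : ℝ) < k := by linarith
  have hle : ∀ a : ℕ, 2 ^ a ≤ k → (a : ℝ) ≤ Real.logb 2 k := by
    intro a ha
    rw [Real.le_logb_iff_rpow_le (by norm_num) hkpos, Real.rpow_natCast]
    exact_mod_cast ha
  unfold eps
  rw [le_div_iff₀ hkpos, one_mul]
  rcases le_or_gt k 150 with h | h
  · have h1 := hle 1 (by omega)
    have h2 : (1 : ℝ) ≤ Real.logb 2 k ^ 4 := one_le_pow₀ (by simpa using h1)
    have h3 : (k : ℝ) ≤ 150 := by exact_mod_cast h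
    linarith
  · rcases le_or_gt k 360150 with h' | h'
    · have h1 := hle 7 (by omega)
      have h2 : ((7 : ℕ) : ℝ) ^ 4 ≤ Real.logb 2 k ^ 4 := pow_le_pow_left₀ (by norm_num) h1 4
      have h3 : (k : ℝ) ≤ 360150 := by exact_mod_cast h'
      norm_num at h2
      linarith
    · have h1 := hle 18 (by omega)
      have h2 : ((18 : ℕ) : ℝ) ^ 4 ≤ Real.logb 2 k ^ 4 := pow_le_pow_left₀ (by norm_num) h1 4
      have h3 : (k : ℝ) ≤ 1048576 := by exact_mod_cast hk.le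
      norm_num at h2
      linarith

/-- the base of the trade-off is at most `2` -/
lemma base_le_two {z δ : ℝ} (hδ : 0 ≤ δ) (hz : 3 / 2 ≤ z) (hz2 : z ≤ 2) :
    0 ≤ z * ((2 - z) / (z - 1)) ^ δ ∧ z * ((2 - z) / (z - 1)) ^ δ ≤ 2 := by
  have h1 : 0 ≤ (2 - z) / (z - 1) := div_nonneg (by linarith) (by linarith)
  have h2 : (2 - z) / (z - 1) ≤ 1 := by
    rw [div_le_one (by linarith)]
    linarith
  have h3 : ((2 - z) / (z - 1)) ^ δ ≤ 1 := Real.rpow_le_one h1 h2 hδ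
  have h4 : 0 ≤ ((2 - z) / (z - 1)) ^ δ := Real.rpow_nonneg h1 δ
  constructor
  · exact mul_nonneg (by linarith) h4
  · calc z * ((2 - z) / (z - 1)) ^ δ ≤ 2 * 1 := by gcongr
      _ = 2 := by norm_num

/-- the main part: large `k` -/
theorem main {k : ℕ} (hk : 2 ^ 20 ≤ k) {n : ℕ} (hn : k * k ≤ n) : ∃ F : CNF n, IsKCNF k F ∧
    Unsat F ∧ ∀ (N : ℕ) (π : Refutation F N),
      (∃ t, (1 - eps k) * n ≤ ((π.cl t).card : ℝ)) ∧
      ∀ δ z : ℝ, 0 ≤ δ → 3 / 2 ≤ z → z ≤ 2 → AlmostRegular π (δ * n) →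
        (z * ((2 - z) / (z - 1)) ^ δ) ^ n * (2 : ℝ) ^ (-(eps k * n)) ≤ N := by
  classical
  have hkpos : 0 < k := by omega
  have hkR : (0 : ℝ) < k := by exact_mod_cast hkpos
  obtain ⟨ℓ, hℓ⟩ : ∃ ℓ, ℓ = Nat.log 2 k + 1 := ⟨_, rfl⟩
  have hk2 : k < 2 ^ ℓ := by
    rw [hℓ]
    exact Nat.lt_pow_succ_log_self (by norm_num) k
  have hk1' : 2 ^ (ℓ - 1) ≤ k := by
    rw [hℓ, Nat.add_sub_cancel]
    exact Nat.pow_log_le_self 2 hkpos.ne'
  have hℓ21 : 21 ≤ ℓ := by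
    have : 2 ^ 20 < 2 ^ ℓ := lt_of_le_of_lt hk hk2
    have := (Nat.pow_lt_pow_iff_right (by norm_num : 1 < 2)).1 this
    omega
  have hk1 : 2 ^ ℓ ≤ 2 * k := by
    have : 2 ^ ℓ = 2 * 2 ^ (ℓ - 1) := by
      rw [← pow_succ']
      congr 1
      omega
    omega
  obtain ⟨M, P, hPk, hPw, hF, hC, hbad⟩ := exists_sys_params hℓ21 hk1 hk2 hn
  set m := n / k with hm
  have hmk : k ≤ m := by
    rw [hm, Nat.le_div_iff_mul_le hkpos]
    exact hn
  have hmpos : 0 < m := by omega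
  have hmR : (m : ℝ) ≤ n / k := by
    rw [hm]
    exact Nat.cast_div_le
  have hmR1 : (1 : ℝ) ≤ m := by exact_mod_cast hmpos
  have hℓR : (21 : ℝ) ≤ ℓ := by exact_mod_cast hℓ21
  -- the logarithm
  set Lg := Real.logb 2 k with hLg
  have hLg1 : (ℓ : ℝ) - 1 ≤ Lg := by
    rw [hLg, Real.le_logb_iff_rpow_le (by norm_num) hkR]
    have h1 : ((ℓ : ℝ) - 1) = ((ℓ - 1 : ℕ) : ℝ) := by
      rw [Nat.cast_sub (by omega)]
      simp
    rw [h1, Real.rpow_natCast]
    exact_mod_cast hk1'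
  have hLg4 : 123 * (ℓ : ℝ) ^ 4 ≤ 150 * Lg ^ 4 := by
    have h1 : (ℓ : ℝ) ≤ 21 / 20 * Lg := by linarith
    calc 123 * (ℓ : ℝ) ^ 4 ≤ 123 * (21 / 20 * Lg) ^ 4 := by gcongr
      _ = 123 * (21 / 20) ^ 4 * Lg ^ 4 := by ring
      _ ≤ 150 * Lg ^ 4 := by
          gcongr
          norm_num
  have heps : 123 * (ℓ : ℝ) ^ 4 * (n / k) ≤ eps k * n := by
    unfold eps
    rw [← hLg]
    calc 123 * (ℓ : ℝ) ^ 4 * (n / k) ≤ 150 * Lg ^ 4 * (n / k) := by gcongr
      _ = 150 * Lg ^ 4 / k * n := by ring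
  -- the budget
  set w := 4 * (5 * ℓ) * (2 * ℓ) with hw
  set p := ℓ * m with hp
  set u := (5 * (ℓ * (2 * ℓ + 1)) + 1) * m with hu
  have hbud : ((w * p + u + 1 : ℕ) : ℝ) + ((w * p + (w * p + u + 1) : ℕ) : ℝ) ≤
      122 * (ℓ : ℝ) ^ 3 * m := by
    rw [hw, hp, hu]
    push_cast
    have h1 : (20 * (ℓ : ℝ) ^ 2 + 10 * ℓ + 4) ≤ 2 * (ℓ : ℝ) ^ 3 := by
      nlinarith [mul_nonneg (sub_nonneg.2 hℓR) (sub_nonneg.2 hℓR), mul_self_nonneg (ℓ : ℝ)]
    have h2 : (20 * (ℓ : ℝ) ^ 2 + 10 * ℓ + 4) * m ≤ 2 * (ℓ : ℝ) ^ 3 * m := by gcongr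
    nlinarith
  have hwalk : ∀ {N : ℕ} (π : Refutation P.cnf N) (S0 : Finset (Fin n)) (Xs : Fin n → Bool),
      Concl π (w * p + u + 1) (w * p + (w * p + u + 1)) S0 Xs := fun π S0 Xs =>
    walk_main hF hC (by rw [hp, mul_assoc]) (Nat.mul_pos (by omega) hmpos) hPw S0 Xs
  refine ⟨P.cnf, cnf_kcnf hPk, cnf_unsat hbad, fun N π => ⟨?_, ?_⟩⟩
  · -- width
    obtain ⟨t, l, X, E, -, -, h1, -, -⟩ := hwalk π ∅ fun _ => false
    refine ⟨t, ?_⟩
    rw [empty_union] at h1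
    have h2 := card_compl_add_card (vars (π.cl t))
    rw [Fintype.card_fin] at h2
    have h3 : (vars (π.cl t)).card ≤ (π.cl t).card := card_image_le
    have h4 : (n : ℝ) ≤ ((π.cl t).card : ℝ) + ((w * p + u + 1 : ℕ) : ℝ) := by
      have : n ≤ (π.cl t).card + (w * p + u + 1) := by omega
      exact_mod_cast this
    have h5 : ((w * p + u + 1 : ℕ) : ℝ) ≤ eps k * n := by
      refine le_trans ?_ heps
      have h6 : (0 : ℝ) ≤ ((w * p + (w * p + u + 1) : ℕ) : ℝ) := Nat.cast_nonneg _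
      calc ((w * p + u + 1 : ℕ) : ℝ) ≤ 122 * (ℓ : ℝ) ^ 3 * m := by linarith
        _ ≤ 123 * (ℓ : ℝ) ^ 4 * (n / k) := by
            have h7 : (ℓ : ℝ) ^ 3 ≤ (ℓ : ℝ) ^ 4 := pow_le_pow_right₀ (by linarith) (by norm_num)
            gcongr
            norm_num
    linarith
  · -- size
    intro δ z hδ hz hz2 hirr
    have hN1 : (0 : ℝ) ≤ N := Nat.cast_nonneg _
    have hθ0 : 0 ≤ (2 - z) / (z - 1) := div_nonneg (by linarith) (by linarith)
    have hθ1 : (2 - z) / (z - 1) ≤ 1 := by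
      rw [div_le_one (by linarith)]
      linarith
    set θ := (2 - z) / (z - 1) with hθ
    set I := ⌊δ * n⌋₊ with hI
    have hδn : 0 ≤ δ * n := mul_nonneg hδ (Nat.cast_nonneg _)
    have hIle : (I : ℝ) ≤ δ * n := Nat.floor_le hδn
    have hκ : (0 : ℝ) < 1 / 2 ^ ℓ := by positivity
    have hκ1 : (1 : ℝ) / 2 ^ ℓ ≤ 1 := by
      rw [div_le_one (by positivity)]
      exact one_le_pow₀ (by norm_num)
    have hmass := mass π (t := w * p + u + 1) (e := w * p + (w * p + u + 1)) (I := I)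
      (fun S0 Xs => hwalk π S0 Xs) (fun t l hl => Nat.le_floor (hirr t l hl)) hz hz2 hκ hκ1
    -- powers of `θ`
    have hpow : (z * θ ^ δ) ^ n ≤ z ^ n * θ ^ I := by
      rw [mul_pow]
      refine mul_le_mul_of_nonneg_left ?_ (by positivity)
      rw [← Real.rpow_natCast (θ ^ δ) n, ← Real.rpow_mul hθ0]
      rcases hθ0.eq_or_lt with h0 | hpos
      · rw [← h0]
        rcases hδn.eq_or_lt with h1 | h1
        · have hI0 : I = 0 := by
            rw [hI, ← h1]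
            simp
          rw [hI0, ← h1]
          simp
        · rw [Real.zero_rpow h1.ne']
          positivity
      · rw [← Real.rpow_natCast θ I]
        exact Real.rpow_le_rpow_of_exponent_ge hpos hθ1 hIle
    have hone : (1 + 2 * (1 / 2 ^ ℓ) : ℝ) ^ n ≤ (2 : ℝ) ^ (3 * (n / k : ℝ)) := by
      have h1 : (1 + 2 * (1 / 2 ^ ℓ) : ℝ) ≤ Real.exp (2 / k) := by
        have h2 : (1 : ℝ) / 2 ^ ℓ ≤ 1 / k := by
          refine one_div_le_one_div_of_le hkR ?_
          exact_mod_cast hk2.le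
        have h3 := Real.add_one_le_exp (2 / k : ℝ)
        have h4 : (2 : ℝ) / k = 2 * (1 / k) := by ring
        rw [h4] at h3 ⊢
        linarith
      calc (1 + 2 * (1 / 2 ^ ℓ) : ℝ) ^ n ≤ (Real.exp (2 / k)) ^ n :=
            pow_le_pow_left₀ (by positivity) h1 n
        _ = Real.exp (2 * (n / k)) := by
            rw [← Real.exp_nat_mul]
            congr 1
            ring
        _ ≤ (2 : ℝ) ^ (3 * (n / k : ℝ)) := by
            rw [Real.rpow_def_of_pos (by norm_num)]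
            apply Real.exp_le_exp.2
            have h5 := Real.log_two_gt_d9
            have h6 : (0 : ℝ) ≤ n / k := by positivity
            nlinarith
    have hkap : (1 / 2 ^ ℓ : ℝ) ^ (w * p + u + 1 + (w * p + (w * p + u + 1))) *
        (2 : ℝ) ^ (122 * (ℓ : ℝ) ^ 4 * (n / k)) ≥ 1 := by
      rw [one_div, inv_pow, ← pow_mul, ← Real.rpow_natCast 2, ← Real.rpow_neg (by norm_num),
        ← Real.rpow_add (by norm_num)]
      apply Real.one_le_rpow (by norm_num)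
      rw [Nat.cast_mul, Nat.cast_add]
      have h1 : (ℓ : ℝ) * (((w * p + u + 1 : ℕ) : ℝ) + ((w * p + (w * p + u + 1) : ℕ) : ℝ)) ≤
          ℓ * (122 * (ℓ : ℝ) ^ 3 * m) := by gcongr
      have h2 : ℓ * (122 * (ℓ : ℝ) ^ 3 * m) ≤ 122 * (ℓ : ℝ) ^ 4 * (n / k) := by
        calc ℓ * (122 * (ℓ : ℝ) ^ 3 * m) = 122 * (ℓ : ℝ) ^ 4 * m := by ring
          _ ≤ _ := by gcongr
      linarith
    have hsum : (2 : ℝ) ^ (3 * (n / k : ℝ)) * (2 : ℝ) ^ (122 * (ℓ : ℝ) ^ 4 * (n / k)) ≤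
        (2 : ℝ) ^ (eps k * n) := by
      rw [← Real.rpow_add (by norm_num)]
      apply Real.rpow_le_rpow_of_exponent_le (by norm_num)
      refine le_trans ?_ heps
      have h1 : (3 : ℝ) ≤ (ℓ : ℝ) ^ 4 := by
        calc (3 : ℝ) ≤ 21 ^ 4 := by norm_num
          _ ≤ (ℓ : ℝ) ^ 4 := by gcongr
      have h2 : (0 : ℝ) ≤ n / k := by positivity
      nlinarith
    set κE := (1 / 2 ^ ℓ : ℝ) ^ (w * p + u + 1 + (w * p + (w * p + u + 1))) with hκE
    have hzn : 0 ≤ z ^ n * θ ^ I := by positivity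
    have hfin : z ^ n * θ ^ I ≤ N * (2 : ℝ) ^ (eps k * n) := by
      calc z ^ n * θ ^ I = z ^ n * θ ^ I * 1 := by ring
        _ ≤ z ^ n * θ ^ I * (κE * (2 : ℝ) ^ (122 * (ℓ : ℝ) ^ 4 * (n / k))) := by
            gcongr
        _ = (z ^ n * θ ^ I * κE) * (2 : ℝ) ^ (122 * (ℓ : ℝ) ^ 4 * (n / k)) := by ring
        _ ≤ (N * (1 + 2 * (1 / 2 ^ ℓ)) ^ n) * (2 : ℝ) ^ (122 * (ℓ : ℝ) ^ 4 * (n / k)) := by
            gcongr
        _ ≤ (N * (2 : ℝ) ^ (3 * (n / k : ℝ))) * (2 : ℝ) ^ (122 * (ℓ : ℝ) ^ 4 * (n / k)) := by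
            gcongr
        _ = N * ((2 : ℝ) ^ (3 * (n / k : ℝ)) * (2 : ℝ) ^ (122 * (ℓ : ℝ) ^ 4 * (n / k))) := by
            ring
        _ ≤ N * (2 : ℝ) ^ (eps k * n) := by gcongr
    rw [Real.rpow_neg (by norm_num), ← div_eq_mul_inv, div_le_iff₀ (by positivity)]
    exact hpow.trans hfin

/-- For every `k ≥ 2` and all large `n` there is an unsatisfiable `k`-CNF formula on `n` variables
such that, with `ε = 150 (log₂ k)⁴ / k`:
* every resolution refutation has a clause with at least `(1 - ε) n` literals;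
* every resolution refutation has at least `(3 / 2) ^ n * 2 ^ (-ε n)` clauses;
* every regular resolution refutation has at least `2 ^ ((1 - ε) n)` clauses;
* for all `δ ≥ 0` and `z ∈ [3/2, 2]`, every resolution refutation in which on each path from the
  root at most `δ n` variables are resolved on more than once has at least
  `(z * ((2 - z) / (z - 1)) ^ δ) ^ n * 2 ^ (-ε n)` clauses. -/
theorem result : ∀ k : ℕ, 2 ≤ k → ∃ n0 : ℕ, ∀ n, n0 ≤ n → ∃ F : CNF n, IsKCNF k F ∧ Unsat F ∧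
    ∀ (N : ℕ) (π : Refutation F N),
      (∃ t, (1 - eps k) * n ≤ ((π.cl t).card : ℝ)) ∧
      (3 / 2 : ℝ) ^ n * (2 : ℝ) ^ (-(eps k * n)) ≤ N ∧
      (AlmostRegular π 0 → (2 : ℝ) ^ ((1 - eps k) * n) ≤ N) ∧
      ∀ δ z : ℝ, 0 ≤ δ → 3 / 2 ≤ z → z ≤ 2 → AlmostRegular π (δ * n) →
        (z * ((2 - z) / (z - 1)) ^ δ) ^ n * (2 : ℝ) ^ (-(eps k * n)) ≤ N := by
  intro k hk2
  suffices h : ∃ n0 : ℕ, ∀ n, n0 ≤ n → ∃ F : CNF n, IsKCNF k F ∧ Unsat F ∧
      ∀ (N : ℕ) (π : Refutation F N),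
        (∃ t, (1 - eps k) * n ≤ ((π.cl t).card : ℝ)) ∧
        ∀ δ z : ℝ, 0 ≤ δ → 3 / 2 ≤ z → z ≤ 2 → AlmostRegular π (δ * n) →
          (z * ((2 - z) / (z - 1)) ^ δ) ^ n * (2 : ℝ) ^ (-(eps k * n)) ≤ N by
    obtain ⟨n0, h⟩ := h
    refine ⟨n0, fun n hn => ?_⟩
    obtain ⟨F, hFk, hFu, hF⟩ := h n hn
    refine ⟨F, hFk, hFu, fun N π => ?_⟩
    obtain ⟨h1, h2⟩ := hF N π
    refine ⟨h1, ?_, ?_, h2⟩
    · have h3 := h2 1 (3 / 2) (by norm_num) le_rfl (by norm_num) (fun t l _ => by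
        rw [one_mul]
        have : (univ.filter fun i => 2 ≤ l.count i).card ≤ n := by
          have := card_le_univ (univ.filter fun i : Fin n => 2 ≤ l.count i)
          rwa [Fintype.card_fin] at this
        exact_mod_cast this)
      have h4 : (3 / 2 : ℝ) * ((2 - 3 / 2) / (3 / 2 - 1)) ^ (1 : ℝ) = 3 / 2 := by
        rw [Real.rpow_one]
        norm_num
      rw [h4] at h3
      exact h3
    · intro hreg
      have h3 := h2 0 2 le_rfl (by norm_num) le_rfl (by rwa [zero_mul])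
      rw [Real.rpow_zero, mul_one] at h3
      have h4 : (2 : ℝ) ^ ((1 - eps k) * n) = (2 : ℝ) ^ n * (2 : ℝ) ^ (-(eps k * n)) := by
        rw [← Real.rpow_natCast, ← Real.rpow_add (by norm_num)]
        congr 1
        ring
      rw [h4]
      exact h3
  rcases lt_or_ge k (2 ^ 20) with hk | hk
  · refine ⟨1, fun n hn => ?_⟩
    obtain ⟨n', rfl⟩ : ∃ n', n = n' + 1 := ⟨n - 1, by omega⟩
    have htr := trivial_range hk2 hk
    refine ⟨{{(0, true)}, {(0, false)}}, ?_, ?_, ?_⟩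
    · intro C hC
      rw [mem_insert, mem_singleton] at hC
      rcases hC with rfl | rfl <;> simp <;> omega
    · intro x
      cases hx : x 0
      · exact ⟨{(0, true)}, by simp, by simp [Satisfies, hx]⟩
      · exact ⟨{(0, false)}, by simp, by simp [Satisfies, hx]⟩
    · intro N π
      refine ⟨⟨π.root, ?_⟩, fun δ z hδ hz hz2 _ => ?_⟩
      · have h1 : (1 - eps k) * ((n' + 1 : ℕ) : ℝ) ≤ 0 :=
          mul_nonpos_of_nonpos_of_nonneg (by linarith) (Nat.cast_nonneg _)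
        exact h1.trans (Nat.cast_nonneg _)
      · have hN : 1 ≤ N := by
          have := π.root.2
          omega
        have h1 : (1 : ℝ) ≤ N := by exact_mod_cast hN
        refine le_trans ?_ h1
        obtain ⟨hb0, hb2⟩ := base_le_two hδ hz hz2
        rw [Real.rpow_neg (by norm_num), ← div_eq_mul_inv, div_le_one (by positivity)]
        calc (z * ((2 - z) / (z - 1)) ^ δ) ^ (n' + 1) ≤ (2 : ℝ) ^ (n' + 1) :=
              pow_le_pow_left₀ hb0 hb2 _
          _ = (2 : ℝ) ^ ((n' + 1 : ℕ) : ℝ) := by rw [Real.rpow_natCast]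
          _ ≤ (2 : ℝ) ^ (eps k * ((n' + 1 : ℕ) : ℝ)) := by
              apply Real.rpow_le_rpow_of_exponent_le (by norm_num)
              exact le_mul_of_one_le_left (Nat.cast_nonneg _) htr
  · exact ⟨k * k, fun n hn => main hk hn⟩

end Pool.Agent.Results.MP_c62aed_lc.ResolutionSETH
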