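import Pool.Agent.H21.SR.Walk

/-!
# The size bound from the walks with random restrictions and random hidden assignments
-/

open Finset Pool.Agent.H73.Xor

namespace Pool.Agent.H21.SR

variable {n N : ℕ} {F : CNF n}

/-- the conclusion of the walk, for any formula -/
def Concl' (π : Refutation F N) (t e : ℕ) (S0 : Finset (Fin n)) (Xs : Fin n → Bool) : Prop :=
  ∃ (u : Fin N) (l : List (Fin n)) (X : Fin n → Bool) (E : Finset (Fin n)),
    π.Path π.root u l ∧ Fal X (π.cl u) ∧ (S0 ∪ vars (π.cl u))ᶜ.card ≤ t ∧ E.card ≤ e ∧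
    ∀ v ∈ vars (π.cl u), X v ≠ Xs v → v ∈ E ∨ (v ∉ S0 ∧ 2 ≤ l.count v)

open Classical in
/-- the falsifying values of a clause -/
noncomputable def fv (π : Refutation F N) (u : Fin N) : Fin n → Bool :=
  if h : ∃ X, Fal X (π.cl u) then h.choose else fun _ => false

lemma fv_eq {π : Refutation F N} {u : Fin N} {X : Fin n → Bool} (hX : Fal X (π.cl u))
    {v : Fin n} (hv : v ∈ vars (π.cl u)) : fv π u v = X v := by
  have h : ∃ X, Fal X (π.cl u) := ⟨X, hX⟩
  have h1 : Fal (fv π u) (π.cl u) := by
    unfold fv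
    rw [dif_pos h]
    exact h.choose_spec
  rw [vars, mem_image] at hv
  obtain ⟨l, hl, rfl⟩ := hv
  rw [h1 l hl, hX l hl]

/-- the weight of a star or a restricted variable -/
noncomputable def psi (τ : ℝ) (o : Bool × Bool) : ℝ := if o.1 = true then τ / 2 else (1 - τ) / 2

/-- the penalties -/
noncomputable def chi (π : Refutation F N) (θ κ : ℝ) (u : Fin N) (v : Fin n) (o : Bool × Bool) :
    ℝ :=
  if v ∈ vars (π.cl u) then
    (if o.2 = fv π u v then 1 else if o.1 = true then θ else κ)
  else (if o.1 = true then κ else 1)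

lemma chi_nonneg {π : Refutation F N} {θ κ : ℝ} (hθ : 0 ≤ θ) (hκ : 0 ≤ κ) (u : Fin N) (v : Fin n)
    (o : Bool × Bool) : 0 ≤ chi π θ κ u v o := by
  unfold chi
  split_ifs <;> first | exact zero_le_one | assumption

lemma chi_ge {π : Refutation F N} {θ κ : ℝ} (hκθ : κ ≤ θ) (hκ : 0 < κ) (hθ1 : θ ≤ 1) {t e I : ℕ}
    {ω : Fin n → Bool × Bool} {u : Fin N} {l : List (Fin n)} {X : Fin n → Bool}
    {E : Finset (Fin n)} (hX : Fal X (π.cl u))
    (hC : ((univ.filter fun v => (ω v).1 = false) ∪ vars (π.cl u))ᶜ.card ≤ t) (hE : E.card ≤ e)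
    (hdev : ∀ v ∈ vars (π.cl u), X v ≠ (ω v).2 →
      v ∈ E ∨ (v ∉ (univ.filter fun v => (ω v).1 = false) ∧ 2 ≤ l.count v))
    (hI : (univ.filter fun i => 2 ≤ l.count i).card ≤ I) :
    θ ^ I * κ ^ (t + e) ≤ ∏ v, chi π θ κ u v (ω v) := by
  classical
  set S0 := univ.filter fun v => (ω v).1 = false with hS0
  set C := (S0 ∪ vars (π.cl u))ᶜ with hCdef
  set Irr := univ.filter fun i => 2 ≤ l.count i with hIrr
  have hθ : 0 < θ := hκ.trans_le hκθ
  have hκ1 : κ ≤ 1 := hκθ.trans hθ1
  have h1 : ∏ v, ((if v ∈ Irr then θ else 1) * (if v ∈ E ∪ C then κ else 1)) ≤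
      ∏ v, chi π θ κ u v (ω v) := by
    refine Finset.prod_le_prod (fun v _ => ?_) fun v _ => ?_
    · split_ifs <;> positivity
    · have hi1 : (if v ∈ Irr then θ else 1) ≤ 1 := by split_ifs <;> simp [hθ1]
      have hi0 : 0 < (if v ∈ Irr then θ else 1) := by split_ifs <;> simp [hθ]
      have he1 : (if v ∈ E ∪ C then κ else 1) ≤ 1 := by split_ifs <;> simp [hκ1]
      have he0 : 0 < (if v ∈ E ∪ C then κ else 1) := by split_ifs <;> simp [hκ]
      have hmul1 : (if v ∈ Irr then θ else 1) * (if v ∈ E ∪ C then κ else 1) ≤ 1 :=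
        mul_le_one₀ hi1 he0.le he1
      unfold chi
      by_cases hv : v ∈ vars (π.cl u)
      · rw [if_pos hv]
        by_cases hval : (ω v).2 = fv π u v
        · rw [if_pos hval]
          exact hmul1
        · rw [if_neg hval]
          rw [fv_eq hX hv] at hval
          rcases hdev v hv (fun h => hval h.symm) with h2 | ⟨h2, h3⟩
          · have h4 : v ∈ E ∪ C := mem_union_left _ h2
            have h5 : (if v ∈ Irr then θ else 1) * (if v ∈ E ∪ C then κ else 1) ≤ κ := by
              rw [if_pos h4]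
              exact mul_le_of_le_one_left hκ.le hi1
            by_cases hst : (ω v).1 = true
            · rw [if_pos hst]
              exact h5.trans hκθ
            · rw [if_neg hst]
              exact h5
          · have h4 : (ω v).1 = true := by
              rw [hS0, mem_filter] at h2
              simpa using h2
            have h5 : v ∈ Irr := by
              rw [hIrr, mem_filter]
              exact ⟨mem_univ _, h3⟩
            rw [if_pos h4, if_pos h5]
            exact mul_le_of_le_one_right hθ.le he1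
      · rw [if_neg hv]
        by_cases hst : (ω v).1 = true
        · rw [if_pos hst]
          have h4 : v ∈ E ∪ C := by
            refine mem_union_right _ ?_
            rw [hCdef, mem_compl, mem_union, hS0, mem_filter]
            rintro (h | h)
            · rw [hst] at h
              exact absurd h.2 (by simp)
            · exact hv h
          rw [if_pos h4]
          exact mul_le_of_le_one_left hκ.le hi1
        · rw [if_neg hst]
          exact hmul1
  refine le_trans ?_ h1
  rw [Finset.prod_mul_distrib, Finset.prod_ite, Finset.prod_ite]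
  simp only [Finset.prod_const, Finset.prod_const_one, one_pow, mul_one]
  have h2 : (univ.filter fun v => v ∈ Irr).card ≤ I := by
    rw [Finset.filter_mem_eq_inter, univ_inter]
    exact hI
  have h3 : (univ.filter fun v => v ∈ E ∪ C).card ≤ t + e := by
    rw [Finset.filter_mem_eq_inter, univ_inter]
    have := card_union_le E C
    omega
  refine mul_le_mul (pow_le_pow_of_le_one hθ.le hθ1 h2) (pow_le_pow_of_le_one hκ.le hκ1 h3)
    (by positivity) (by positivity)

lemma sum_psi_chi {π : Refutation F N} {τ θ κ : ℝ} (hτ : 0 ≤ τ) (hτ1 : τ ≤ 1)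
    (hκ : 0 < κ) (hκ1 : κ ≤ 1) (hθ : τ * θ ≤ 1 - 2 * τ + τ * κ) (u : Fin N) (v : Fin n) :
    ∑ o : Bool × Bool, psi τ o * chi π θ κ u v o ≤ 1 - τ + κ := by
  rw [Fintype.sum_prod_type]
  simp only [Fintype.sum_bool]
  unfold psi chi
  by_cases hv : v ∈ vars (π.cl u)
  · simp only [if_pos hv]
    cases hf : fv π u v
    · simp only [Bool.false_eq_true, if_false, if_true]
      simp
      nlinarith
    · simp only [Bool.false_eq_true, if_false, if_true]
      simp
      nlinarith
  · simp only [if_neg hv]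
    simp
    nlinarith

/-- the size bound -/
theorem mass (π : Refutation F N) {t e I : ℕ} (hW : ∀ S0 Xs, Concl' π t e S0 Xs)
    (hI : ∀ (u : Fin N) (l : List (Fin n)), π.Path π.root u l →
      (univ.filter fun i => 2 ≤ l.count i).card ≤ I)
    {z κ : ℝ} (hz : 3 / 2 ≤ z) (hz2 : z ≤ 2) (hκ : 0 < κ) (hκ1 : κ ≤ 1) :
    z ^ n * ((2 - z) / (z - 1)) ^ I * κ ^ (t + e) ≤ N * (1 + 2 * κ) ^ n := by
  classical
  have hz0 : 0 < z := by linarith
  have hz1 : 0 < z - 1 := by linarith
  set τ : ℝ := 1 - 1 / z with hτdef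
  have hinv : 1 / z ≤ 2 / 3 := by
    rw [div_le_div_iff₀ hz0 (by norm_num)]
    linarith
  have hinv2 : 1 / 2 ≤ 1 / z := by
    rw [div_le_div_iff₀ (by norm_num) hz0]
    linarith
  have hτ : 0 ≤ τ := by rw [hτdef]; linarith
  have hτ1 : τ ≤ 1 := by rw [hτdef]; linarith
  set θ : ℝ := (2 - z) / (z - 1) with hθdef
  have hθ0 : 0 ≤ θ := div_nonneg (by linarith) hz1.le
  have hθ1 : θ ≤ 1 := by
    rw [hθdef, div_le_one hz1]
    linarith
  have hτθ : τ * θ = 1 - 2 * τ := by
    rw [hτdef, hθdef]
    field_simp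
    ring
  set θ' := max θ κ with hθ'
  have hθ'1 : θ' ≤ 1 := max_le hθ1 hκ1
  have hκθ' : κ ≤ θ' := le_max_right _ _
  have hθ'0 : 0 ≤ θ' := hκ.le.trans hκθ'
  have hθ'τ : τ * θ' ≤ 1 - 2 * τ + τ * κ := by
    rw [← hτθ, ← mul_add]
    refine mul_le_mul_of_nonneg_left ?_ hτ
    exact max_le (by linarith) (by linarith)
  choose u l X E hpath hfal hC hE hdev using fun ω : Fin n → Bool × Bool =>
    hW (univ.filter fun v => (ω v).1 = false) (fun v => (ω v).2)
  have hpsi : ∀ o, 0 ≤ psi τ o := by
    intro o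
    unfold psi
    split_ifs
    · linarith
    · linarith
  have hsum1 : ∑ ω : Fin n → Bool × Bool, ∏ v, psi τ (ω v) = 1 := by
    have h1 := Finset.prod_univ_sum (fun _ : Fin n => (univ : Finset (Bool × Bool)))
      (fun (_ : Fin n) o => psi τ o)
    rw [Fintype.piFinset_univ] at h1
    rw [← h1]
    refine Finset.prod_eq_one fun v _ => ?_
    rw [Fintype.sum_prod_type]
    simp only [Fintype.sum_bool, psi]
    simp
  have hmain : θ' ^ I * κ ^ (t + e) ≤ N * (1 / z + κ) ^ n := by
    calc θ' ^ I * κ ^ (t + e)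
        = ∑ ω : Fin n → Bool × Bool, (∏ v, psi τ (ω v)) * (θ' ^ I * κ ^ (t + e)) := by
          rw [← Finset.sum_mul, hsum1, one_mul]
      _ ≤ ∑ ω : Fin n → Bool × Bool, (∏ v, psi τ (ω v)) *
            ∏ v, chi π θ' κ (u ω) v (ω v) := by
          refine Finset.sum_le_sum fun ω _ => ?_
          refine mul_le_mul_of_nonneg_left ?_ (Finset.prod_nonneg fun v _ => hpsi _)
          exact chi_ge hκθ' hκ hθ'1 (hfal ω) (hC ω) (hE ω) (hdev ω) (hI _ _ (hpath ω))
      _ ≤ ∑ ω : Fin n → Bool × Bool, ∑ u0 : Fin N, (∏ v, psi τ (ω v)) *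
            ∏ v, chi π θ' κ u0 v (ω v) := by
          refine Finset.sum_le_sum fun ω _ => ?_
          exact Finset.single_le_sum (f := fun u0 : Fin N => (∏ v, psi τ (ω v)) *
            ∏ v, chi π θ' κ u0 v (ω v)) (fun u0 _ => mul_nonneg
              (Finset.prod_nonneg fun v _ => hpsi _)
              (Finset.prod_nonneg fun v _ => chi_nonneg hθ'0 hκ.le _ _ _)) (mem_univ (u ω))
      _ = ∑ u0 : Fin N, ∑ ω : Fin n → Bool × Bool, ∏ v,
            (psi τ (ω v) * chi π θ' κ u0 v (ω v)) := by
          rw [Finset.sum_comm]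
          refine Finset.sum_congr rfl fun u0 _ => Finset.sum_congr rfl fun ω _ => ?_
          rw [Finset.prod_mul_distrib]
      _ = ∑ u0 : Fin N, ∏ v : Fin n, ∑ o : Bool × Bool, psi τ o * chi π θ' κ u0 v o := by
          refine Finset.sum_congr rfl fun u0 _ => ?_
          have h1 := Finset.prod_univ_sum (fun _ : Fin n => (univ : Finset (Bool × Bool)))
            (fun (v : Fin n) o => psi τ o * chi π θ' κ u0 v o)
          rw [Fintype.piFinset_univ] at h1
          rw [h1]
      _ ≤ ∑ u0 : Fin N, (1 / z + κ) ^ n := by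
          refine Finset.sum_le_sum fun u0 _ => ?_
          have h1 : (1 / z + κ) ^ n = ∏ _v : Fin n, (1 / z + κ) := by
            rw [Finset.prod_const, card_univ, Fintype.card_fin]
          rw [h1]
          refine Finset.prod_le_prod (fun v _ => ?_) fun v _ => ?_
          · exact Finset.sum_nonneg fun o _ => mul_nonneg (hpsi o) (chi_nonneg hθ'0 hκ.le _ _ _)
          · have h2 := sum_psi_chi (π := π) hτ hτ1 hκ hκ1 hθ'τ u0 v
            have h3 : 1 - τ + κ = 1 / z + κ := by rw [hτdef]; ring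
            rw [h3] at h2
            exact h2
      _ = N * (1 / z + κ) ^ n := by
          rw [Finset.sum_const, card_univ, Fintype.card_fin, nsmul_eq_mul]
  have hzz : z ^ n * (1 / z + κ) ^ n ≤ (1 + 2 * κ) ^ n := by
    rw [← mul_pow]
    refine pow_le_pow_left₀ (by positivity) ?_ n
    rw [mul_add, mul_one_div_cancel hz0.ne']
    nlinarith
  calc z ^ n * θ ^ I * κ ^ (t + e) ≤ z ^ n * θ' ^ I * κ ^ (t + e) := by
        gcongr
        exact le_max_left _ _
    _ = z ^ n * (θ' ^ I * κ ^ (t + e)) := by ring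
    _ ≤ z ^ n * (N * (1 / z + κ) ^ n) := by gcongr
    _ = N * (z ^ n * (1 / z + κ) ^ n) := by ring
    _ ≤ N * (1 + 2 * κ) ^ n := by gcongr

end Pool.Agent.H21.SR
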