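import Pool.Agent.H21.SR.Build
import Pool.Agent.H21.SR.Mass

/-!
# The choice of the parameters
-/

open Finset Pool.Agent.H73.Xor

namespace Pool.Agent.H21.SR

lemma exp_two_le : Real.exp 2 ≤ 8 := by
  have h1 : Real.exp 2 = Real.exp 1 ^ 2 := by
    rw [← Real.exp_nat_mul]; norm_num
  rw [h1]
  have h2 := Real.exp_one_lt_d9
  have h3 : (0 : ℝ) < Real.exp 1 := Real.exp_pos 1
  nlinarith

lemma exp_five_ge : (2 : ℝ) ^ 7 ≤ Real.exp 5 := by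
  have h1 : Real.exp 5 = Real.exp 1 ^ 5 := by
    rw [← Real.exp_nat_mul]; norm_num
  rw [h1]
  have h2 := Real.exp_one_gt_d9
  calc (2 : ℝ) ^ 7 ≤ (2.7 : ℝ) ^ 5 := by norm_num
    _ ≤ Real.exp 1 ^ 5 := by
        refine pow_le_pow_left₀ (by norm_num) ?_ 5
        linarith

lemma pow_ge (ℓ : ℕ) (hℓ : 21 ≤ ℓ) : 80 * ℓ ^ 2 ≤ 2 ^ ℓ := by
  induction ℓ, hℓ using Nat.le_induction with
  | base => norm_num
  | succ ℓ hℓ ih =>
    rw [pow_succ 2 ℓ]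
    nlinarith

/-- the parameters of the construction -/
lemma H3_ok {ℓ m n k M : ℕ} (hℓ : 21 ≤ ℓ) (hm : 0 < m) (hn : n ≤ 2 * (k * m)) (hk : k < 2 ^ ℓ)
    (hM : M = n * (k + 1) ^ (2 * ℓ)) :
    (M.choose (ℓ * m) : ℝ) * (n.choose ((5 * (ℓ * (2 * ℓ + 1)) + 1) * m) : ℝ) *
      Real.exp (-(ℓ * ((5 * (ℓ * (2 * ℓ + 1)) * m : ℕ) : ℝ))) ≤ 1 / 2 := by
  set a := ℓ * (2 * ℓ + 1) with ha
  have hℓR : (21 : ℝ) ≤ ℓ := by exact_mod_cast hℓ
  have hmR : (0 : ℝ) < m := by exact_mod_cast hm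
  have hkR : (k : ℝ) + 1 ≤ 2 ^ ℓ := by exact_mod_cast hk
  have hkR' : (k : ℝ) ≤ 2 ^ ℓ := by linarith
  have hnR : (n : ℝ) ≤ 2 * (2 ^ ℓ * m) := by
    have : (n : ℝ) ≤ 2 * (k * m) := by exact_mod_cast hn
    refine this.trans ?_
    gcongr
  have haR : (21 : ℝ) ≤ a := by
    have : 21 ≤ a := by
      rw [ha]
      calc 21 ≤ ℓ * 1 := by omega
        _ ≤ ℓ * (2 * ℓ + 1) := Nat.mul_le_mul_left _ (by omega)
    exact_mod_cast this
  have he := Real.exp_one_lt_d9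
  have he0 : (0 : ℝ) < Real.exp 1 := Real.exp_pos 1
  -- first factor
  have h1 : (M.choose (ℓ * m) : ℝ) ≤ (2 : ℝ) ^ (a * (ℓ * m)) := by
    refine (choose_le M (ℓ * m) (Nat.mul_pos (by omega) hm)).trans ?_
    rw [pow_mul 2 a (ℓ * m)]
    refine pow_le_pow_left₀ (by positivity) ?_ _
    rw [div_le_iff₀ (by positivity)]
    have hMR : (M : ℝ) ≤ 2 * (2 ^ ℓ * m) * (2 ^ ℓ) ^ (2 * ℓ) := by
      rw [hM]
      push_cast
      gcongr
    have ha2 : (2 : ℝ) ^ a = 2 ^ ℓ * (2 ^ ℓ) ^ (2 * ℓ) := by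
      rw [← pow_mul, ← pow_add]
      congr 1
      rw [ha]
      ring
    calc Real.exp 1 * M ≤ Real.exp 1 * (2 * (2 ^ ℓ * m) * (2 ^ ℓ) ^ (2 * ℓ)) := by gcongr
      _ = (2 * Real.exp 1) * ((2 ^ ℓ * (2 ^ ℓ) ^ (2 * ℓ)) * m) := by ring
      _ ≤ ℓ * ((2 ^ ℓ * (2 ^ ℓ) ^ (2 * ℓ)) * m) := by
          gcongr
          linarith
      _ = 2 ^ a * ((ℓ * m : ℕ) : ℝ) := by
          rw [ha2]
          push_cast
          ring
  -- second factor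
  have h2 : (n.choose ((5 * a + 1) * m) : ℝ) ≤ (2 : ℝ) ^ ((ℓ - 1) * ((5 * a + 1) * m)) := by
    refine (choose_le n ((5 * a + 1) * m) (Nat.mul_pos (by omega) hm)).trans ?_
    rw [pow_mul 2 (ℓ - 1) ((5 * a + 1) * m)]
    refine pow_le_pow_left₀ (by positivity) ?_ _
    rw [div_le_iff₀ (by positivity)]
    have h2ℓ : (2 : ℝ) ^ ℓ = 2 * 2 ^ (ℓ - 1) := by
      rw [← pow_succ']
      congr 1
      omega
    calc Real.exp 1 * n ≤ Real.exp 1 * (2 * (2 ^ ℓ * m)) := by gcongr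
      _ = (4 * Real.exp 1) * (2 ^ (ℓ - 1) * m) := by rw [h2ℓ]; ring
      _ ≤ (5 * a + 1) * (2 ^ (ℓ - 1) * m) := by
          gcongr
          linarith
      _ = 2 ^ (ℓ - 1) * (((5 * a + 1) * m : ℕ) : ℝ) := by
          push_cast
          ring
  -- third factor
  have h3 : Real.exp (-(ℓ * ((5 * a * m : ℕ) : ℝ))) ≤ 1 / (2 : ℝ) ^ (7 * (a * (ℓ * m))) := by
    rw [Real.exp_neg, ← one_div]
    refine one_div_le_one_div_of_le (by positivity) ?_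
    rw [pow_mul]
    calc ((2 : ℝ) ^ 7) ^ (a * (ℓ * m)) ≤ (Real.exp 5) ^ (a * (ℓ * m)) :=
          pow_le_pow_left₀ (by positivity) exp_five_ge _
      _ = Real.exp (ℓ * ((5 * a * m : ℕ) : ℝ)) := by
          rw [← Real.exp_nat_mul]
          congr 1
          push_cast
          ring
  have h4 : a * (ℓ * m) + (ℓ - 1) * ((5 * a + 1) * m) + 1 ≤ 7 * (a * (ℓ * m)) := by
    obtain ⟨c, hc⟩ : ∃ c, ℓ = c + 1 := ⟨ℓ - 1, by omega⟩
    have hc' : ℓ - 1 = c := by omega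
    rw [hc']
    have h5 : (ℓ : ℕ) ≤ a := by
      rw [ha]
      exact Nat.le_mul_of_pos_right _ (by omega)
    have h6 : a * (ℓ * m) = a * c * m + a * m := by rw [hc]; ring
    have h7 : c * ((5 * a + 1) * m) = 5 * (a * c * m) + c * m := by ring
    have h8 : c * m ≤ a * m := Nat.mul_le_mul_right _ (by omega)
    have h9 : m ≤ a * m := Nat.le_mul_of_pos_left _ (by omega)
    rw [h6, h7]
    nlinarith
  calc (M.choose (ℓ * m) : ℝ) * (n.choose ((5 * a + 1) * m) : ℝ) *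
        Real.exp (-(ℓ * ((5 * a * m : ℕ) : ℝ)))
      ≤ (2 : ℝ) ^ (a * (ℓ * m)) * (2 : ℝ) ^ ((ℓ - 1) * ((5 * a + 1) * m)) *
        (1 / (2 : ℝ) ^ (7 * (a * (ℓ * m)))) := by gcongr
    _ ≤ 1 / 2 := by
        rw [mul_one_div, div_le_div_iff₀ (by positivity) (by norm_num), one_mul, ← pow_add,
          ← pow_succ]
        exact pow_le_pow_right₀ (by norm_num) h4

/-- the systems with all parameters -/
theorem exists_sys_params {k ℓ : ℕ} (hℓ : 21 ≤ ℓ) (hk1 : 2 ^ ℓ ≤ 2 * k) (hk2 : k < 2 ^ ℓ) {n : ℕ}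
    (hn : k * k ≤ n) :
    ∃ M : ℕ, ∃ P : Sys (Fin n) M, (∀ j, (P.T j).card ≤ k) ∧
      (∀ j, 4 * (5 * ℓ) * (2 * ℓ) ≤ (P.T j).card) ∧
      P.Flex (2 * ℓ * (n / k)) (4 * (5 * ℓ) * (2 * ℓ)) ∧
      P.Covering (ℓ * (n / k)) ((5 * (ℓ * (2 * ℓ + 1)) + 1) * (n / k)) ∧
      ∀ x, ∃ j, P.bad j x := by
  have hpow := pow_ge ℓ hℓ
  have hkpos : 0 < k := by
    rcases Nat.eq_zero_or_pos k with rfl | h
    · have : 0 < 2 ^ ℓ := by positivity
      omega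
    · exact h
  set m := n / k with hm
  have hmk : k ≤ m := by
    rw [hm, Nat.le_div_iff_mul_le hkpos]
    exact hn
  have hmpos : 0 < m := by omega
  have hkm : k * m ≤ n := Nat.mul_div_le n k
  have hlt : n < k * m + k := by
    rw [hm]
    exact Nat.lt_mul_div_succ n hkpos
  have hn2 : n ≤ 2 * (k * m) := by
    have : k ≤ k * m := Nat.le_mul_of_pos_right _ hmpos
    omega
  have hnpos : 0 < n := by
    have : 0 < k * m := Nat.mul_pos hkpos hmpos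
    omega
  have hkR : (k : ℝ) + 1 ≤ 2 ^ ℓ := by exact_mod_cast hk2
  have hkR' : (k : ℝ) ≤ 2 ^ ℓ := by linarith
  have hmR : (0 : ℝ) < m := by exact_mod_cast hmpos
  have hnR : (n : ℝ) ≤ 2 * (2 ^ ℓ * m) := by
    have : (n : ℝ) ≤ 2 * (k * m) := by exact_mod_cast hn2
    refine this.trans ?_
    gcongr
  refine ⟨n * (k + 1) ^ (2 * ℓ), ?_⟩
  refine exists_sys (b := ℓ) (D := 5 * ℓ) (d := 2 * ℓ) (m := m)
    (u0 := 5 * (ℓ * (2 * ℓ + 1)) * m) hnpos hmpos hkm (by omega) (by omega) ?_ ?_ ?_ le_rfl ?_ ?_ ?_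
    ?_
  · have : 4 * (5 * ℓ) * (2 * ℓ) = 40 * ℓ ^ 2 := by ring
    omega
  · calc 4 = 2 ^ 2 := by norm_num
      _ ≤ 2 ^ (2 * ℓ) := Nat.pow_le_pow_right (by norm_num) (by omega)
  · have h1 : 2 ^ (2 * ℓ) = 2 ^ ℓ * 2 ^ ℓ := by rw [← pow_add]; congr 1; ring
    rw [h1]
    have h2 : 80 * ℓ ≤ 2 ^ ℓ := by nlinarith
    calc 4 * (k * (4 * (5 * ℓ))) = k * (80 * ℓ) := by ring
      _ ≤ 2 ^ ℓ * 2 ^ ℓ := Nat.mul_le_mul hk2.le h2
  · -- H1
    push_cast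
    have h1 := exp_two_le
    calc 4 * Real.exp 2 * (n * ((k : ℝ) + 1) ^ (2 * ℓ))
        ≤ 4 * 8 * ((2 * (2 ^ ℓ * m)) * (2 ^ ℓ) ^ (2 * ℓ)) := by gcongr
      _ = m * 2 ^ (6 + ℓ + ℓ * (2 * ℓ)) := by
          rw [← pow_mul, pow_add, pow_add]
          ring
      _ ≤ m * 2 ^ (2 * (5 * ℓ) * (2 * ℓ) - 1) := by
          gcongr
          · norm_num
          · have : 2 * (5 * ℓ) * (2 * ℓ) = 20 * (ℓ * ℓ) := by ring
            have h2 : ℓ * (2 * ℓ) = 2 * (ℓ * ℓ) := by ring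
            have h3 : ℓ ≤ ℓ * ℓ := Nat.le_mul_of_pos_left _ (by omega)
            omega
  · -- H2
    have h1 : Real.exp (2 * ℓ + 2) ≤ 2 ^ (3 * ℓ + 3) := by
      have h2 : Real.exp (2 * (ℓ : ℝ) + 2) = Real.exp 2 ^ (ℓ + 1) := by
        rw [← Real.exp_nat_mul]
        congr 1
        push_cast
        ring
      rw [h2]
      calc Real.exp 2 ^ (ℓ + 1) ≤ 8 ^ (ℓ + 1) :=
            pow_le_pow_left₀ (Real.exp_pos 2).le exp_two_le _
        _ = 2 ^ (3 * ℓ + 3) := by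
            rw [show (8 : ℝ) = 2 ^ 3 by norm_num, ← pow_mul]
            congr 1
    calc 4 * Real.exp (2 * ℓ + 2) * n ≤ 4 * 2 ^ (3 * ℓ + 3) * (2 * (2 ^ ℓ * m)) := by gcongr
      _ = m * 2 ^ (4 * ℓ + 6) := by
          have : (2 : ℝ) ^ (4 * ℓ + 6) = 2 ^ (3 * ℓ + 3) * 2 ^ ℓ * 2 ^ 3 := by
            rw [← pow_add, ← pow_add]
            congr 1
            ring
          rw [this]
          ring
      _ ≤ m * 2 ^ (5 * ℓ - 1) := by
          gcongr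
          · norm_num
          · omega
  · -- hu
    have : (5 * (ℓ * (2 * ℓ + 1)) + 1) * m = 5 * (ℓ * (2 * ℓ + 1)) * m + m := by ring
    omega
  · exact H3_ok hℓ hmpos hn2 hk2 rfl

end Pool.Agent.H21.SR
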