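import Pool.Agent.H21.SR.Lll

/-!
# Peeling: few constraints with many free variables each can be satisfied
-/

open Finset

namespace Pool.Agent.H21.SR

variable {V : Type*} [Fintype V] [DecidableEq V] {M : ℕ}

/-- every set of at most `R` constraints with at least `w` variables in `U` each can be satisfied by
changes on `U` -/
def Sys.Flex (P : Sys V M) (R w : ℕ) : Prop :=
  ∀ Q : Finset (Fin M), Q.card ≤ R → ∀ U : Finset V, (∀ j ∈ Q, w ≤ (P.T j ∩ U).card) →
    ∀ x : V → Bool, ∃ x' : V → Bool, (∀ v, v ∉ U → x' v = x v) ∧ ∀ j ∈ Q, ¬ P.bad j x'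

variable {P : Sys V M}

lemma mem_cov {Q : Finset (Fin M)} {v : V} : v ∈ P.cov Q ↔ ∃ j ∈ Q, v ∈ P.T j := by
  simp [Sys.cov]

lemma cov_insert {Q : Finset (Fin M)} {j : Fin M} : P.cov (insert j Q) = P.T j ∪ P.cov Q := by
  simp [Sys.cov]

lemma cov_mono {Q Q' : Finset (Fin M)} (h : Q ⊆ Q') : P.cov Q ⊆ P.cov Q' := by
  intro v hv
  rw [mem_cov] at *
  obtain ⟨j, hj, hv⟩ := hv
  exact ⟨j, h hj, hv⟩

lemma cov_union {Q Q' : Finset (Fin M)} : P.cov (Q ∪ Q') = P.cov Q ∪ P.cov Q' := by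
  ext v
  simp only [mem_cov, mem_union]
  constructor
  · rintro ⟨j, hj | hj, hv⟩
    · exact Or.inl ⟨j, hj, hv⟩
    · exact Or.inr ⟨j, hj, hv⟩
  · rintro (⟨j, hj, hv⟩ | ⟨j, hj, hv⟩)
    · exact ⟨j, Or.inl hj, hv⟩
    · exact ⟨j, Or.inr hj, hv⟩

/-- the number of neighbours -/
lemma nbr_le {k D : ℕ} (hk : ∀ j, (P.T j).card ≤ k) {Q : Finset (Fin M)} {U : Finset V}
    (hD : ∀ v ∈ U, P.deg Q v ≤ D) (j : Fin M) :
    (Q.filter fun i => ¬ Disjoint (P.T i) (P.T j ∩ U)).card ≤ k * D := by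
  have hsub : (Q.filter fun i => ¬ Disjoint (P.T i) (P.T j ∩ U)) ⊆
      (P.T j ∩ U).biUnion fun v => Q.filter fun i => v ∈ P.T i := by
    intro i hi
    rw [mem_filter, Finset.not_disjoint_iff] at hi
    obtain ⟨hiQ, v, hv, hv'⟩ := hi
    rw [mem_biUnion]
    exact ⟨v, hv', mem_filter.2 ⟨hiQ, hv⟩⟩
  refine (card_le_card hsub).trans (card_biUnion_le.trans ?_)
  calc ∑ v ∈ P.T j ∩ U, (Q.filter fun i => v ∈ P.T i).card ≤ ∑ v ∈ P.T j ∩ U, D :=
        Finset.sum_le_sum fun v hv => hD v (mem_inter.1 hv).2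
    _ = (P.T j ∩ U).card * D := by rw [Finset.sum_const, smul_eq_mul]
    _ ≤ k * D := Nat.mul_le_mul_right _ ((card_le_card inter_subset_left).trans (hk j))

theorem flex {k R w d D : ℕ} (hk : ∀ j, (P.T j).card ≤ k) (hS : P.Sparse d)
    (hE : P.Expanding R w d D) (h4 : 4 ≤ 2 ^ d) (hB : 4 * (k * D) ≤ 2 ^ d) :
    P.Flex R w := by
  classical
  intro Q
  induction Q using Finset.strongInduction with
  | H Q ih =>
    intro hQR U hU x
    rcases Q.eq_empty_or_nonempty with rfl | hne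
    · exact ⟨x, fun _ _ => rfl, fun j hj => absurd hj (notMem_empty j)⟩
    set U0 := U.filter fun v => P.deg Q v ≤ D with hU0
    -- a maximal peeled set
    obtain ⟨S, hS1, hS2⟩ := Finset.exists_max_image
      (Q.powerset.filter fun S => (P.cov S ∩ U0).card ≤ d * S.card) Finset.card
      ⟨∅, by simp [Sys.cov]⟩
    rw [mem_filter, mem_powerset] at hS1
    obtain ⟨hSQ, hScard⟩ := hS1
    have hSne : S ≠ Q := by
      rintro rfl
      have h1 := hE S hne hQR U hU
      have h2 : P.cov S ∩ U ⊆ (P.cov S ∩ U0) ∪ U.filter fun v => D < P.deg S v := by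
        intro v hv
        rw [mem_inter] at hv
        simp only [mem_union, mem_inter, mem_filter, hU0]
        by_cases h : P.deg S v ≤ D
        · exact Or.inl ⟨hv.1, hv.2, h⟩
        · exact Or.inr ⟨hv.2, not_le.1 h⟩
      have h3 := (card_le_card h2).trans (card_union_le _ _)
      omega
    have hSss : S ⊂ Q := lt_of_le_of_ne hSQ hSne
    set U1 := U0 \ P.cov S with hU1
    have hU1U : U1 ⊆ U := sdiff_subset.trans (filter_subset _ _)
    have hQ1 : ∀ j ∈ Q \ S, d ≤ (P.T j ∩ U1).card := by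
      intro j hj
      rw [mem_sdiff] at hj
      by_contra hcon
      push Not at hcon
      have h1 : insert j S ∈ Q.powerset.filter fun S => (P.cov S ∩ U0).card ≤ d * S.card := by
        rw [mem_filter, mem_powerset]
        refine ⟨insert_subset hj.1 hSQ, ?_⟩
        rw [card_insert_of_notMem hj.2, cov_insert]
        have h2 : (P.T j ∪ P.cov S) ∩ U0 ⊆ (P.T j ∩ U1) ∪ (P.cov S ∩ U0) := by
          intro v hv
          rw [mem_inter, mem_union] at hv
          rw [mem_union, mem_inter, mem_inter, hU1, mem_sdiff]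
          tauto
        have h3 := (card_le_card h2).trans (card_union_le _ _)
        have h4 : d * (S.card + 1) = d * S.card + d := by ring
        omega
      have h2 := hS2 _ h1
      rw [card_insert_of_notMem hj.2] at h2
      omega
    obtain ⟨x1, hx1, hx1S⟩ := ih S hSss ((card_le_card hSQ).trans hQR) U
      (fun j hj => hU j (hSQ hj)) x
    obtain ⟨x2, hx2, hx2S⟩ := lll (B := k * D) hS hB h4 x1 hQ1 (fun j hj => by
      refine nbr_le hk (fun v hv => ?_) j
      have h1 : v ∈ U0 := (mem_sdiff.1 hv).1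
      rw [hU0, mem_filter] at h1
      refine le_trans (card_le_card ?_) h1.2
      exact filter_subset_filter _ sdiff_subset)
    refine ⟨x2, fun v hv => ?_, fun j hj => ?_⟩
    · rw [hx2 v fun h => hv (hU1U h), hx1 v hv]
    · by_cases hjS : j ∈ S
      · intro hb
        refine hx1S j hjS (P.loc j _ _ (fun v hv => ?_) hb)
        apply hx2
        intro hvU
        rw [hU1, mem_sdiff] at hvU
        exact hvU.2 (mem_cov.2 ⟨j, hjS, hv⟩)
      · exact hx2S j (mem_sdiff.2 ⟨hj, hjS⟩)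

end Pool.Agent.H21.SR
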