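import Pool.Agent.H21.SR.Rand2
import Pool.Agent.H21.SR.Flex

/-!
# Expansion and covering for random scopes
-/

open Finset

namespace Pool.Agent.H21.SR

variable {n k m M L : ℕ} {e : Fin k → Fin m → Fin n}

lemma sc_inj (he : ∀ i s i' s', e i s = e i' s' → i = i' ∧ s = s') (t : Fin M → Fin k → Fin m)
    (j : Fin M) : Function.Injective fun i => e i (t j i) := by
  intro i i' h
  exact (he _ _ _ _ h).1

lemma inc_eq (he : ∀ i s i' s', e i s = e i' s' → i = i' ∧ s = s') (t : Fin M → Fin k → Fin m)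
    (Q : Finset (Fin M)) (Y : Finset (Fin n)) :
    inc e t Q Y = ∑ j ∈ Q, ((univ.image fun i => e i (t j i)) ∩ Y).card := by
  classical
  unfold inc
  refine Finset.sum_congr rfl fun j _ => ?_
  have h1 : (univ.image fun i => e i (t j i)) ∩ Y =
      (univ.filter fun i => e i (t j i) ∈ Y).image fun i => e i (t j i) := by
    ext v
    simp only [mem_inter, mem_image, mem_univ, true_and, mem_filter]
    constructor
    · rintro ⟨⟨i, rfl⟩, hv⟩
      exact ⟨i, hv, rfl⟩
    · rintro ⟨i, hi, rfl⟩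
      exact ⟨⟨i, rfl⟩, hi⟩
  rw [h1, card_image_of_injective _ (sc_inj he t j)]

lemma expanding_of {b D d : ℕ} (hD : 1 ≤ D) (hd : 1 ≤ d)
    (he : ∀ i s i' s', e i s = e i' s' → i = i' ∧ s = s') {t : Fin M → Fin k → Fin m}
    (ht : ∀ (Q : Finset (Fin M)) (Y : Finset (Fin n)), Q.Nonempty → Q.card ≤ 2 * b * m →
        Y.Nonempty → inc e t Q Y < D * (2 * d * Q.card + Y.card))
    (h : (Fin k → Bool) → Fin L) (c : Fin M → Fin L) :
    (mkSys (fun j i => e i (t j i)) h c).Expanding (2 * b * m) (4 * D * d) d (4 * D) := by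
  classical
  set P := mkSys (fun j i => e i (t j i)) h c with hP
  intro Q hQ hQR U hU
  by_contra hcon
  push Not at hcon
  set Y := P.cov Q ∩ U with hY
  set H := U.filter fun v => 4 * D < P.deg Q v with hH
  have hinc : inc e t Q Y = ∑ j ∈ Q, (P.T j ∩ U).card := by
    rw [inc_eq he]
    refine Finset.sum_congr rfl fun j hj => ?_
    congr 1
    ext v
    rw [hY, mem_inter, mem_inter, mem_inter, mem_cov]
    constructor
    · rintro ⟨h1, -, h2⟩
      exact ⟨h1, h2⟩
    · rintro ⟨h1, h2⟩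
      exact ⟨h1, ⟨j, hj, h1⟩, h2⟩
  have h1 : 4 * D * d * Q.card ≤ inc e t Q Y := by
    rw [hinc]
    calc 4 * D * d * Q.card = ∑ j ∈ Q, 4 * D * d := by
          rw [Finset.sum_const, smul_eq_mul, mul_comm]
      _ ≤ _ := Finset.sum_le_sum hU
  have h2 : inc e t Q Y = ∑ v ∈ U, P.deg Q v := by
    rw [hinc]
    have h3 : ∀ j, (P.T j ∩ U).card = ∑ v ∈ U, if v ∈ P.T j then 1 else 0 := by
      intro j
      rw [← Finset.card_filter]
      congr 1
      ext v
      simp [and_comm]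
    simp only [h3]
    rw [Finset.sum_comm]
    refine Finset.sum_congr rfl fun v _ => ?_
    unfold Sys.deg
    rw [Finset.card_filter]
  have h3 : 4 * D * H.card ≤ inc e t Q Y := by
    rw [h2]
    calc 4 * D * H.card = ∑ v ∈ H, 4 * D := by rw [Finset.sum_const, smul_eq_mul, mul_comm]
      _ ≤ ∑ v ∈ H, P.deg Q v := by
          refine Finset.sum_le_sum fun v hv => ?_
          rw [hH, mem_filter] at hv
          exact hv.2.le
      _ ≤ ∑ v ∈ U, P.deg Q v := by
          refine Finset.sum_le_sum_of_subset ?_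
          exact filter_subset _ _
  have hYne : Y.Nonempty := by
    obtain ⟨j, hj⟩ := hQ
    have h4 := hU j hj
    have h5 : 0 < (P.T j ∩ U).card := by
      have : 0 < 4 * D * d := by positivity
      omega
    obtain ⟨v, hv⟩ := card_pos.1 h5
    rw [mem_inter] at hv
    exact ⟨v, mem_inter.2 ⟨mem_cov.2 ⟨j, hj, hv.1⟩, hv.2⟩⟩
  have h4 := ht Q Y hQ hQR hYne
  -- `Y.card ≤ d * Q.card + H.card`
  have h5 : 4 * D * Y.card ≤ 4 * D * (d * Q.card + H.card) := Nat.mul_le_mul_left _ hcon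
  have h6 : D * (2 * d * Q.card + Y.card) = 2 * (D * d * Q.card) + D * Y.card := by ring
  have h7 : 4 * D * (d * Q.card + H.card) = 4 * (D * d * Q.card) + 4 * D * H.card := by ring
  have h8 : 4 * D * d * Q.card = 4 * (D * d * Q.card) := by ring
  have h9 : 4 * D * Y.card = 4 * (D * Y.card) := by ring
  omega

lemma covering_of {p u : ℕ} {t : Fin M → Fin k → Fin m}
    (ht : ∀ (J : Finset (Fin M)) (U : Finset (Fin n)), J.card = p → U.card = u →
        ∃ j ∈ J, ∃ i, e i (t j i) ∈ U)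
    (h : (Fin k → Bool) → Fin L) (c : Fin M → Fin L) :
    (mkSys (fun j i => e i (t j i)) h c).Covering p u := by
  classical
  intro J hJ
  by_contra hcon
  push Not at hcon
  obtain ⟨U, hU, hUc⟩ := Finset.exists_subset_card_eq hcon
  obtain ⟨j, hj, i, hi⟩ := ht J U hJ hUc
  have h1 := hU hi
  rw [mem_compl] at h1
  apply h1
  rw [mem_cov]
  exact ⟨j, hj, mem_image.2 ⟨i, mem_univ _, rfl⟩⟩

/-- the system -/
theorem exists_sys {b D d u u0 : ℕ} (hn : 0 < n) (hm : 0 < m)
    (hkm : k * m ≤ n) (hD : 1 ≤ D) (hd : 1 ≤ d) (hk : 4 * D * d ≤ k)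
    (h4 : 4 ≤ 2 ^ d) (hB : 4 * (k * (4 * D)) ≤ 2 ^ d) (hM : n * (k + 1) ^ d ≤ M)
    (H1 : 4 * Real.exp 2 * M ≤ m * 2 ^ (2 * D * d - 1))
    (H2 : 4 * Real.exp (2 * b + 2) * n ≤ m * 2 ^ (D - 1))
    (hu : u0 + n ≤ u + k * m)
    (H3 : (M.choose (b * m) : ℝ) * (n.choose u : ℝ) * Real.exp (-(b * u0)) ≤ 1 / 2) :
    ∃ P : Sys (Fin n) M, (∀ j, (P.T j).card ≤ k) ∧ (∀ j, 4 * D * d ≤ (P.T j).card) ∧
      P.Flex (2 * b * m) (4 * D * d) ∧ P.Covering (b * m) u ∧ ∀ x, ∃ j, P.bad j x := by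
  classical
  have hL : 0 < (k + 1) ^ d := by positivity
  set e : Fin k → Fin m → Fin n := fun i s => Fin.castLE hkm (finProdFinEquiv (i, s)) with he0
  have he : ∀ i s i' s', e i s = e i' s' → i = i' ∧ s = s' := by
    intro i s i' s' h
    have h1 := Fin.castLE_injective hkm h
    have h2 := finProdFinEquiv.injective h1
    exact Prod.ext_iff.1 h2
  obtain ⟨t, ht1, ht2⟩ := exists_scopes e he hm hD hd H1 H2 hu H3
  obtain ⟨h, hh⟩ := exists_code k d
  obtain ⟨c, hc⟩ := exists_targets hL hn hM fun j x => h fun i => x (e i (t j i))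
  have hcard : ∀ j, ((mkSys (fun j i => e i (t j i)) h c).T j).card = k := by
    intro j
    show (univ.image fun i => e i (t j i)).card = k
    rw [card_image_of_injective _ (sc_inj he t j), card_univ, Fintype.card_fin]
  refine ⟨mkSys (fun j i => e i (t j i)) h c, fun j => (hcard j).le, fun j => ?_, ?_,
    covering_of ht2 h c, hc⟩
  · rw [hcard j]; exact hk
  · exact flex (fun j => (hcard j).le) (mkSys_sparse (sc_inj he t) hh c)
      (expanding_of hD hd he ht1 h c) h4 hB

end Pool.Agent.H21.SR
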