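import Pool.Agent.H21.SR.Lll

/-!
# Colourings of the cube, the constraints, and unsatisfiability
-/

open Finset

namespace Pool.Agent.H21.SR

/-- greedy colouring -/
lemma exists_coloring {α : Type*} [Fintype α] [DecidableEq α] (r : α → α → Prop)
    [DecidableRel r] (hr : ∀ a b, r a b → r b a) (hrr : ∀ a, ¬ r a a) {L : ℕ}
    (hL : ∀ a, (univ.filter fun b => r a b).card < L) :
    ∃ c : α → Fin L, ∀ a b, r a b → c a ≠ c b := by
  rcases isEmpty_or_nonempty α with hα | ⟨⟨a0⟩⟩
  · exact ⟨fun a => (hα.false a).elim, fun a => (hα.false a).elim⟩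
  have hLpos : 0 < L := lt_of_le_of_lt (Nat.zero_le _) (hL a0)
  suffices h : ∀ S : Finset α, ∃ c : α → Fin L, ∀ a ∈ S, ∀ b ∈ S, r a b → c a ≠ c b by
    obtain ⟨c, hc⟩ := h univ
    exact ⟨c, fun a b hab => hc a (mem_univ _) b (mem_univ _) hab⟩
  intro S
  induction S using Finset.induction_on with
  | empty => exact ⟨fun _ => ⟨0, hLpos⟩, fun a ha => absurd ha (notMem_empty a)⟩
  | insert s S hs ih =>
    obtain ⟨c, hc⟩ := ih
    have h1 : ((univ.filter fun b => r s b).image c).card < (univ : Finset (Fin L)).card := by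
      rw [card_univ, Fintype.card_fin]
      exact card_image_le.trans_lt (hL s)
    obtain ⟨x, -, hx⟩ := Finset.exists_mem_notMem_of_card_lt_card h1
    refine ⟨Function.update c s x, ?_⟩
    intro a ha b hb hab
    by_cases has : a = s
    · by_cases hbs : b = s
      · rw [has, hbs] at hab
        exact absurd hab (hrr s)
      · rw [has, Function.update_self, Function.update_of_ne hbs]
        rintro rfl
        apply hx
        rw [mem_image]
        exact ⟨b, mem_filter.2 ⟨mem_univ _, has ▸ hab⟩, rfl⟩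
    · by_cases hbs : b = s
      · rw [hbs, Function.update_self, Function.update_of_ne has]
        intro heq
        apply hx
        rw [mem_image]
        exact ⟨a, mem_filter.2 ⟨mem_univ _, hr _ _ (hbs ▸ hab)⟩, heq⟩
      · rw [Function.update_of_ne has, Function.update_of_ne hbs]
        exact hc a (mem_of_mem_insert_of_ne ha has) b (mem_of_mem_insert_of_ne hb hbs) hab

/-- the size of Hamming balls -/
lemma card_ball_le' {k : ℕ} (d : ℕ) (x : Fin k → Bool) :
    (univ.filter fun y : Fin k → Bool => (univ.filter fun i => x i ≠ y i).card ≤ d).card ≤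
      (k + 1) ^ d := by
  classical
  have hsub : (univ.filter fun y : Fin k → Bool => (univ.filter fun i => x i ≠ y i).card ≤ d) ⊆
      (univ : Finset (Fin d → Option (Fin k))).image fun f i =>
        if ∃ j, f j = some i then !x i else x i := by
    intro y hy
    rw [mem_filter] at hy
    rw [mem_image]
    set D := univ.filter fun i => x i ≠ y i with hD
    refine ⟨fun j => D.toList[j.1]?, mem_univ _, ?_⟩
    funext i
    have hiff : (∃ j : Fin d, D.toList[j.1]? = some i) ↔ i ∈ D := by
      rw [← Finset.mem_toList, List.mem_iff_getElem?]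
      constructor
      · rintro ⟨j, hj⟩
        exact ⟨j.1, hj⟩
      · rintro ⟨j, hj⟩
        have h1 : j < D.toList.length := by
          by_contra hcon
          rw [List.getElem?_eq_none (by omega)] at hj
          simp at hj
        rw [Finset.length_toList] at h1
        exact ⟨⟨j, by omega⟩, hj⟩
    by_cases hi : i ∈ D
    · rw [if_pos (hiff.2 hi)]
      rw [hD, mem_filter] at hi
      revert hi
      cases x i <;> cases y i <;> simp
    · rw [if_neg (fun h => hi (hiff.1 h))]
      rw [hD, mem_filter] at hi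
      by_contra hne
      exact hi ⟨mem_univ _, hne⟩
  refine (card_le_card hsub).trans (card_image_le.trans ?_)
  rw [card_univ, Fintype.card_fun, Fintype.card_option, Fintype.card_fin, Fintype.card_fin]

/-- a colouring of the cube without close points of equal colour -/
lemma exists_code (k d : ℕ) : ∃ h : (Fin k → Bool) → Fin ((k + 1) ^ d),
    ∀ x y : Fin k → Bool, (univ.filter fun i => x i ≠ y i).card ≤ d → h x = h y → x = y := by
  classical
  obtain ⟨c, hc⟩ := exists_coloring (α := Fin k → Bool)
    (fun x y => x ≠ y ∧ (univ.filter fun i => x i ≠ y i).card ≤ d)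
    (fun x y ⟨h1, h2⟩ => ⟨h1.symm, by
      refine le_trans (le_of_eq ?_) h2
      congr 1
      ext i
      simp only [mem_filter, mem_univ, true_and]
      exact ne_comm⟩)
    (fun x h => h.1 rfl) (L := (k + 1) ^ d) (fun x => by
      refine lt_of_lt_of_le (card_lt_card ?_) (card_ball_le' d x)
      refine ⟨fun y hy => ?_, fun hcon => ?_⟩
      · rw [mem_filter] at hy ⊢
        exact ⟨hy.1, hy.2.2⟩
      · have := hcon (show x ∈ _ by
          rw [mem_filter]
          refine ⟨mem_univ _, ?_⟩
          have : (univ.filter fun i => x i ≠ x i) = ∅ := by simp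
          rw [this]
          simp)
        rw [mem_filter] at this
        exact this.2.1 rfl)
  refine ⟨c, fun x y hxy heq => ?_⟩
  by_contra hne
  exact hc x y ⟨hne, hxy⟩ heq

lemma two_mul_pow_lt (L : ℕ) (hL : 0 < L) : 2 * (L - 1) ^ L < L ^ L := by
  obtain ⟨a, rfl⟩ : ∃ a, L = a + 1 := ⟨L - 1, by omega⟩
  rw [Nat.add_sub_cancel]
  rcases Nat.eq_zero_or_pos a with rfl | ha
  · norm_num
  have haR : (0 : ℝ) < a := by exact_mod_cast ha
  have h1 : 1 + ((a + 1 : ℕ) : ℝ) * (1 / a) ≤ (1 + 1 / a) ^ (a + 1) :=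
    one_add_mul_le_pow (by
      have : (0 : ℝ) < 1 / a := by positivity
      linarith) (a + 1)
  have h2 : (2 : ℝ) < 1 + ((a + 1 : ℕ) : ℝ) * (1 / a) := by
    push_cast
    have : ((a : ℝ) + 1) * (1 / a) = 1 + 1 / a := by field_simp
    rw [this]
    have : (0 : ℝ) < 1 / a := by positivity
    linarith
  have h3 : ((a : ℝ) + 1) ^ (a + 1) = (1 + 1 / a) ^ (a + 1) * (a : ℝ) ^ (a + 1) := by
    rw [← mul_pow]
    congr 1
    field_simp
  have h4 : (2 : ℝ) * (a : ℝ) ^ (a + 1) < ((a : ℝ) + 1) ^ (a + 1) := by
    rw [h3]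
    exact mul_lt_mul_of_pos_right (h2.trans_le h1) (by positivity)
  exact_mod_cast h4

/-- targets without a solution -/
lemma exists_targets {n M L : ℕ} (hL : 0 < L) (hn : 0 < n) (hM : n * L ≤ M)
    (h : Fin M → (Fin n → Bool) → Fin L) :
    ∃ b : Fin M → Fin L, ∀ x : Fin n → Bool, ∃ j, h j x = b j := by
  classical
  by_contra hcon
  push Not at hcon
  have hsub : (univ : Finset (Fin M → Fin L)) ⊆ (univ : Finset (Fin n → Bool)).biUnion fun x =>
      Fintype.piFinset fun j => univ.erase (h j x) := by
    intro b _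
    obtain ⟨x, hx⟩ := hcon b
    rw [mem_biUnion]
    refine ⟨x, mem_univ _, ?_⟩
    rw [Fintype.mem_piFinset]
    intro j
    rw [mem_erase]
    exact ⟨fun h' => hx j h'.symm, mem_univ _⟩
  have h1 := (card_le_card hsub).trans card_biUnion_le
  have h2 : ∀ x : Fin n → Bool, (Fintype.piFinset fun j => univ.erase (h j x)).card =
      (L - 1) ^ M := by
    intro x
    rw [Fintype.card_piFinset]
    rw [Finset.prod_congr rfl fun j _ => by
      rw [card_erase_of_mem (mem_univ _), card_univ, Fintype.card_fin]]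
    rw [Finset.prod_const, card_univ, Fintype.card_fin]
  rw [Finset.sum_congr rfl fun x _ => h2 x, Finset.sum_const, card_univ, card_univ,
    Fintype.card_fun, Fintype.card_fun, Fintype.card_bool, Fintype.card_fin, Fintype.card_fin,
    Fintype.card_fin, smul_eq_mul] at h1
  -- `L ^ M ≤ 2 ^ n * (L - 1) ^ M`
  obtain ⟨e, he⟩ : ∃ e, M = n * L + e := ⟨M - n * L, by omega⟩
  have h3 : (2 * (L - 1) ^ L) ^ n < (L ^ L) ^ n :=
    Nat.pow_lt_pow_left (two_mul_pow_lt L hL) hn.ne'
  have h4 : 2 ^ n * (L - 1) ^ M ≤ (2 * (L - 1) ^ L) ^ n * L ^ e := by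
    rw [he, pow_add, mul_pow, ← pow_mul, mul_comm L n, ← mul_assoc]
    exact Nat.mul_le_mul_left _ (Nat.pow_le_pow_left (Nat.sub_le _ _) _)
  have h5 : (2 * (L - 1) ^ L) ^ n * L ^ e < (L ^ L) ^ n * L ^ e :=
    Nat.mul_lt_mul_of_pos_right h3 (Nat.pow_pos hL)
  have h6 : (L ^ L) ^ n * L ^ e = L ^ M := by
    rw [he, ← pow_mul, mul_comm L n, ← pow_add]
  omega

/-- the system with given scopes, colouring and targets -/
def mkSys {n k M L : ℕ} (sc : Fin M → Fin k → Fin n) (h : (Fin k → Bool) → Fin L)
    (b : Fin M → Fin L) : Sys (Fin n) M where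
  T j := univ.image (sc j)
  bad j x := h (fun i => x (sc j i)) = b j
  loc := by
    intro j x x' hx hb
    rw [← hb]
    congr 1
    funext i
    exact (hx _ (mem_image_of_mem _ (mem_univ i))).symm

lemma mkSys_sparse {n k M L d : ℕ} {sc : Fin M → Fin k → Fin n}
    (hsc : ∀ j, Function.Injective (sc j)) {h : (Fin k → Bool) → Fin L}
    (hh : ∀ x y : Fin k → Bool, (univ.filter fun i => x i ≠ y i).card ≤ d → h x = h y → x = y)
    (b : Fin M → Fin L) : (mkSys sc h b).Sparse d := by
  classical
  intro j Z hZ hZd x x' hxx hb hb'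
  have h1 : (fun i => x (sc j i)) = fun i => x' (sc j i) := by
    apply hh
    · refine le_trans ?_ hZd
      refine Finset.card_le_card_of_injOn (sc j) ?_ ((hsc j).injOn)
      intro i hi
      rw [Finset.mem_coe, mem_filter] at hi
      rw [Finset.mem_coe]
      by_contra hc
      exact hi.2 (hxx _ hc)
    · exact hb.trans hb'.symm
  funext v
  by_cases hv : v ∈ Z
  · have := hZ hv
    rw [mkSys] at this
    simp only [mem_image, mem_univ, true_and] at this
    obtain ⟨i, rfl⟩ := this
    exact congrFun h1 i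
  · exact hxx v hv

end Pool.Agent.H21.SR
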