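import Pool.Agent.H21.SR.Flex

/-!
# Local consistency, and the number of forced answers
-/

open Finset

namespace Pool.Agent.H21.SR

variable {V : Type*} [Fintype V] [DecidableEq V] {M : ℕ}

/-- `I` is satisfiable together with the values of `X` on `A` -/
def Sys.Ok (P : Sys V M) (A : Finset V) (X : V → Bool) (I : Finset (Fin M)) : Prop :=
  ∃ x : V → Bool, (∀ v ∈ A, x v = X v) ∧ ∀ j ∈ I, ¬ P.bad j x

/-- `r`-local consistency of the values of `X` on `A` -/
def Sys.Cons (P : Sys V M) (r : ℕ) (A : Finset V) (X : V → Bool) : Prop :=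
  ∀ I : Finset (Fin M), I.card ≤ r → P.Ok A X I

variable {P : Sys V M}

lemma Sys.Ok.mono {A A' : Finset V} {X : V → Bool} {I I' : Finset (Fin M)}
    (h : P.Ok A X I) (hA : A' ⊆ A) (hI : I' ⊆ I) : P.Ok A' X I' := by
  obtain ⟨x, hx, hxI⟩ := h
  exact ⟨x, fun v hv => hx v (hA hv), fun j hj => hxI j (hI hj)⟩

lemma Sys.Ok.congr {A : Finset V} {X X' : V → Bool} {I : Finset (Fin M)}
    (h : P.Ok A X I) (hA : ∀ v ∈ A, X' v = X v) : P.Ok A X' I := by
  obtain ⟨x, hx, hxI⟩ := h
  exact ⟨x, fun v hv => by rw [hx v hv, hA v hv], hxI⟩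

lemma Sys.Cons.mono {r : ℕ} {A A' : Finset V} {X : V → Bool} (h : P.Cons r A X) (hA : A' ⊆ A) :
    P.Cons r A' X := fun I hI => (h I hI).mono hA subset_rfl

lemma Sys.Cons.congr {r : ℕ} {A : Finset V} {X X' : V → Bool} (h : P.Cons r A X)
    (hA : ∀ v ∈ A, X' v = X v) : P.Cons r A X' := fun I hI => (h I hI).congr hA

/-- the constraints outside `J` of a minimal inconsistent set have one which is nearly fixed -/
lemma exists_nearly_fixed {R w : ℕ} (hF : P.Flex R w) {A : Finset V} {X : V → Bool}
    {I : Finset (Fin M)} (hI : I.card ≤ R) (hmin : ∀ I' ⊂ I, P.Ok A X I') (hnot : ¬ P.Ok A X I)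
    (J : Finset (Fin M)) (hJ : ¬ I ⊆ J) :
    ∃ j ∈ I \ J, (P.T j \ (A ∪ P.cov J)).card < w := by
  classical
  by_contra hcon
  push Not at hcon
  have hss : I ∩ J ⊂ I := by
    refine ⟨inter_subset_left, fun h => hJ ?_⟩
    exact h.trans inter_subset_right
  obtain ⟨x, hx, hxI⟩ := hmin _ hss
  obtain ⟨x', hx', hxQ⟩ := hF (I \ J) ((card_le_card sdiff_subset).trans hI) (A ∪ P.cov J)ᶜ
    (fun j hj => by
      have := hcon j hj
      rwa [sdiff_eq_inter_compl] at this) x
  apply hnot
  refine ⟨x', fun v hv => ?_, fun j hj => ?_⟩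
  · rw [hx' v, hx v hv]
    rw [notMem_compl]
    exact mem_union_left _ hv
  · by_cases hjJ : j ∈ J
    · intro hb
      refine hxI j (mem_inter.2 ⟨hj, hjJ⟩) (P.loc j _ _ (fun v hv => ?_) hb)
      apply hx'
      rw [notMem_compl]
      exact mem_union_right _ (mem_cov.2 ⟨j, hjJ, hv⟩)
    · exact hxQ j (mem_sdiff.2 ⟨hj, hjJ⟩)

/-- adding the constraints of a minimal inconsistent set one at a time -/
lemma exists_prefix {R w : ℕ} (hF : P.Flex R w) {A S : Finset V} (hAS : A ⊆ S) {X : V → Bool}
    {I : Finset (Fin M)} (hI : I.card ≤ R) (hmin : ∀ I' ⊂ I, P.Ok A X I') (hnot : ¬ P.Ok A X I)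
    (J : Finset (Fin M)) : ∀ m : ℕ, J.card + m ≤ (J ∪ I).card →
    ∃ J' : Finset (Fin M), J ⊆ J' ∧ J' ⊆ J ∪ I ∧ J'.card = J.card + m ∧
      (P.cov J' \ S).card + m ≤ (P.cov J \ S).card + w * m := by
  classical
  intro m
  induction m with
  | zero => intro _; exact ⟨J, subset_rfl, subset_union_left, rfl, le_rfl⟩
  | succ m ih =>
    intro hm
    obtain ⟨J', h1, h2, h3, h4⟩ := ih (by omega)
    have hnotsub : ¬ I ⊆ J' := by
      intro h
      have h5 : J ∪ I ⊆ J' := union_subset h1 h
      have := card_le_card h5
      omega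
    obtain ⟨j, hj, hjw⟩ := exists_nearly_fixed hF hI hmin hnot J' hnotsub
    rw [mem_sdiff] at hj
    refine ⟨insert j J', h1.trans (subset_insert _ _), ?_, ?_, ?_⟩
    · exact insert_subset (mem_union_right _ hj.1) h2
    · rw [card_insert_of_notMem hj.2]
      omega
    · have h5 : P.cov (insert j J') \ S ⊆ (P.T j \ (A ∪ P.cov J')) ∪ (P.cov J' \ S) := by
        intro v hv
        rw [mem_sdiff, cov_insert, mem_union] at hv
        rw [mem_union, mem_sdiff, mem_sdiff, mem_union]
        have := @hAS v
        tauto
      have h6 := (card_le_card h5).trans (card_union_le _ _)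
      have h7 : w * (m + 1) = w * m + w := by ring
      omega

lemma exists_minimal {A : Finset V} {X : V → Bool} {I : Finset (Fin M)} (h : ¬ P.Ok A X I) :
    ∃ I' ⊆ I, ¬ P.Ok A X I' ∧ ∀ I'' ⊂ I', P.Ok A X I'' := by
  classical
  obtain ⟨I', hI', hmin⟩ := Finset.exists_min_image
    (I.powerset.filter fun I' => ¬ P.Ok A X I') Finset.card
    ⟨I, mem_filter.2 ⟨mem_powerset.2 subset_rfl, h⟩⟩
  rw [mem_filter, mem_powerset] at hI'
  refine ⟨I', hI'.1, hI'.2, fun I'' hI'' => ?_⟩
  by_contra hcon
  have := hmin I'' (mem_filter.2 ⟨mem_powerset.2 (hI''.1.trans hI'.1), hcon⟩)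
  have := card_lt_card hI''
  omega

/-- the covering property bounds sets of constraints with few variables outside `S` -/
lemma card_lt_of_cov {w p u : ℕ} (hC : P.Covering p u) {S : Finset V}
    (hS : S.card + w * p + u ≤ Fintype.card V) {J : Finset (Fin M)}
    (hJ : (P.cov J \ S).card ≤ w * p) : J.card ≠ p := by
  classical
  intro hp
  have h1 := hC J hp
  have h2 : (P.cov J).card ≤ (P.cov J \ S).card + S.card := by
    have := card_le_card (show P.cov J ⊆ (P.cov J \ S) ∪ S by
      intro v hv
      rw [mem_union, mem_sdiff]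
      tauto)
    exact this.trans (card_union_le _ _)
  have h3 := card_compl_add_card (P.cov J)
  omega

/-- a minimal inconsistent set is small -/
lemma minimal_small {R w p u : ℕ} (hF : P.Flex R w) (hC : P.Covering p u) {A : Finset V}
    (hA : A.card + w * p + u ≤ Fintype.card V) {X : V → Bool}
    {I : Finset (Fin M)} (hI : I.card ≤ R) (hmin : ∀ I' ⊂ I, P.Ok A X I') (hnot : ¬ P.Ok A X I) :
    I.card < p := by
  classical
  by_contra hcon
  push Not at hcon
  obtain ⟨J', -, -, h3, h4⟩ := exists_prefix hF subset_rfl hI hmin hnot ∅ p (by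
    rw [card_empty, empty_union]
    omega)
  have h5 : (P.cov (∅ : Finset (Fin M)) \ A).card = 0 := by
    simp [Sys.cov]
  refine card_lt_of_cov (w := w) hC hA (J := J') ?_ ?_
  · omega
  · rw [h3, card_empty, zero_add]

/-- one of the two answers is consistent -/
lemma exists_answer {R w p u : ℕ} (hF : P.Flex R w) (hC : P.Covering p u) (hR : 2 * p ≤ R)
    {A : Finset V} (hA : A.card + w * p + u ≤ Fintype.card V) {X : V → Bool}
    (h : P.Cons p A X) (v : V) :
    ∃ b : Bool, P.Cons p (insert v A) (Function.update X v b) := by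
  classical
  by_contra hcon
  push Not at hcon
  have h1 : ∀ b : Bool, ∃ I : Finset (Fin M), I.card ≤ p ∧
      ¬ P.Ok (insert v A) (Function.update X v b) I := by
    intro b
    have := hcon b
    unfold Sys.Cons at this
    push Not at this
    exact this
  choose I hI hnot using h1
  have h2 : ¬ P.Ok A X (I false ∪ I true) := by
    rintro ⟨x, hx, hxI⟩
    refine hnot (x v) ⟨x, fun w hw => ?_, fun j hj => hxI j ?_⟩
    · by_cases hwv : w = v
      · subst hwv; simp
      · rw [Function.update_of_ne hwv]
        exact hx w (mem_of_mem_insert_of_ne hw hwv)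
    · rw [mem_union]
      cases hxv : x v
      · rw [hxv] at hj; exact Or.inl hj
      · rw [hxv] at hj; exact Or.inr hj
  obtain ⟨I', hI', hn, hmin⟩ := exists_minimal h2
  have hcard : I'.card ≤ R := by
    have := card_le_card hI'
    have := card_union_le (I false) (I true)
    have := hI false
    have := hI true
    omega
  have := minimal_small hF hC hA hcard hmin hn
  exact hn (h I' (by omega))

/-- one step of the adversary: `S` is the set of all variables set so far, `J` the set of
constraints used, `F` the number of forced answers -/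
lemma adv_step {R w p u : ℕ} (hF : P.Flex R w) (hC : P.Covering p u) (hR : 2 * p ≤ R)
    {A S : Finset V} (hAS : A ⊆ S) (hS : S.card + 1 + w * p + u ≤ Fintype.card V)
    {X : V → Bool} (h : P.Cons p A X) {v : V} (hv : v ∉ S) {J : Finset (Fin M)} {F : ℕ}
    (hJ : J.card < p) (hJF : (P.cov J \ S).card + F ≤ w * J.card) (b0 : Bool) :
    (P.Cons p (insert v A) (Function.update X v b0)) ∨
    (P.Cons p (insert v A) (Function.update X v !b0) ∧
      ∃ J' : Finset (Fin M), J'.card < p ∧
        (P.cov J' \ (insert v S)).card + (F + 1) ≤ w * J'.card) := by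
  classical
  have hScard : (insert v S).card = S.card + 1 := card_insert_of_notMem hv
  by_cases hb : P.Cons p (insert v A) (Function.update X v b0)
  · exact Or.inl hb
  right
  have hAcard : A.card ≤ S.card := card_le_card hAS
  have hw : 1 ≤ w := by
    by_contra hcon
    have hw0 : w = 0 := by omega
    -- with `w = 0` everything is satisfiable
    apply hb
    intro I hI
    obtain ⟨x, hx, hxI⟩ := hF I (by omega) ∅ (fun j _ => by omega) (Function.update X v b0)
    exact ⟨x, fun v' _ => hx v' (notMem_empty _), hxI⟩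
  refine ⟨?_, ?_⟩
  · obtain ⟨b, hcons⟩ := exists_answer hF hC hR (by omega) h v
    have : b = !b0 := by
      by_contra hne
      have : b = b0 := by
        revert hne; cases b <;> cases b0 <;> simp
      exact hb (this ▸ hcons)
    rwa [this] at hcons
  · have h1 : ∃ I : Finset (Fin M), I.card ≤ p ∧
        ¬ P.Ok (insert v A) (Function.update X v b0) I := by
      unfold Sys.Cons at hb
      push Not at hb
      exact hb
    obtain ⟨I0, hI0, hnot0⟩ := h1
    obtain ⟨I, hI, hnot, hmin⟩ := exists_minimal hnot0
    have hIp : I.card ≤ p := (card_le_card hI).trans hI0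
    -- the queried variable occurs in `I`
    have hvI : v ∈ P.cov I := by
      by_contra hvI
      obtain ⟨x, hx, hxI⟩ := h I hIp
      apply hnot
      refine ⟨Function.update x v b0, fun w hw => ?_, fun j hj hbad => ?_⟩
      · by_cases hwv : w = v
        · subst hwv; simp
        · rw [Function.update_of_ne hwv, Function.update_of_ne hwv]
          exact hx w (mem_of_mem_insert_of_ne hw hwv)
      · refine hxI j hj (P.loc j _ _ (fun w hw => ?_) hbad)
        rw [Function.update_of_ne]
        rintro rfl
        exact hvI (mem_cov.2 ⟨j, hj, hw⟩)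
    have hAS' : insert v A ⊆ insert v S := insert_subset_insert _ hAS
    have hJS : (P.cov J \ insert v S).card ≤ (P.cov J \ S).card :=
      card_le_card (sdiff_subset_sdiff subset_rfl (subset_insert _ _))
    refine ⟨J ∪ I, ?_, ?_⟩
    · by_contra hcon
      push Not at hcon
      obtain ⟨J', -, -, h3, h4⟩ := exists_prefix hF hAS' (by omega) hmin hnot J (p - J.card)
        (by omega)
      refine card_lt_of_cov (w := w) hC (S := insert v S) (by omega) (J := J') ?_ (by omega)
      have h5 : w * (p - J.card) + w * J.card = w * p := by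
        rw [← mul_add]
        congr 1
        omega
      omega
    · obtain ⟨J', h1', h2, h3, h4⟩ := exists_prefix hF hAS' (by omega) hmin hnot J
        ((J ∪ I).card - J.card) (by
          have := card_le_card (subset_union_left (s₁ := J) (s₂ := I))
          omega)
      have hJle := card_le_card (subset_union_left (s₁ := J) (s₂ := I))
      have hJ' : J' = J ∪ I := eq_of_subset_of_card_le h2 (by omega)
      rw [hJ'] at h4
      set m := (J ∪ I).card - J.card with hm
      have h5 : w * (J ∪ I).card = w * J.card + w * m := by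
        rw [← mul_add]
        congr 1
        omega
      by_cases hvJ : v ∈ P.cov J
      · have h6 : (P.cov J \ insert v S).card + 1 ≤ (P.cov J \ S).card := by
          rw [← Nat.lt_iff_add_one_le]
          refine card_lt_card ⟨sdiff_subset_sdiff subset_rfl (subset_insert _ _), fun hc => ?_⟩
          have := hc (mem_sdiff.2 ⟨hvJ, hv⟩)
          rw [mem_sdiff] at this
          exact this.2 (mem_insert_self _ _)
        omega
      · have hm1 : 1 ≤ m := by
          by_contra hcon
          have : J ∪ I ⊆ J := by
            have h7 : J = J ∪ I := eq_of_subset_of_card_le subset_union_left (by omega)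
            rw [← h7]
          have h8 : P.cov I ⊆ P.cov J := cov_mono (subset_union_right.trans this)
          exact hvJ (h8 hvI)
        omega

end Pool.Agent.H21.SR
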