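import Mathlib

/-!
# Weak constraints on sparse scopes: definitions, and the local lemma
-/

open Finset

namespace Pool.Agent.H21.SR

/-- A system of `M` constraints: constraint `j` has the scope `T j`, and is violated by `x` when
`bad j x`, which depends only on the values on the scope. -/
structure Sys (V : Type*) (M : ℕ) where
  T : Fin M → Finset V
  bad : Fin M → (V → Bool) → Prop
  loc : ∀ j x x', (∀ v ∈ T j, x v = x' v) → bad j x → bad j x'

variable {V : Type*} [Fintype V] [DecidableEq V] {M : ℕ}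

/-- on every cube with at most `d` free variables in its scope, a constraint is violated at most
once -/
def Sys.Sparse (P : Sys V M) (d : ℕ) : Prop := ∀ j (Z : Finset V), Z ⊆ P.T j → Z.card ≤ d →
  ∀ x x', (∀ v, v ∉ Z → x v = x' v) → P.bad j x → P.bad j x' → x = x'

/-- the number of scopes of `Q` containing `v` -/
def Sys.deg (P : Sys V M) (Q : Finset (Fin M)) (v : V) : ℕ := (Q.filter fun j => v ∈ P.T j).card

/-- the variables in the scopes of `Q` -/
def Sys.cov (P : Sys V M) (Q : Finset (Fin M)) : Finset V := Q.biUnion P.T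

/-- the expansion of the scopes -/
def Sys.Expanding (P : Sys V M) (R w d D : ℕ) : Prop :=
  ∀ Q : Finset (Fin M), Q.Nonempty → Q.card ≤ R → ∀ U : Finset V,
    (∀ j ∈ Q, w ≤ (P.T j ∩ U).card) →
    d * Q.card + (U.filter fun v => D < P.deg Q v).card < (P.cov Q ∩ U).card

/-- `p` scopes leave less than `u` variables uncovered -/
def Sys.Covering (P : Sys V M) (p u : ℕ) : Prop :=
  ∀ J : Finset (Fin M), J.card = p → (P.cov J)ᶜ.card < u

section lll

variable (P : Sys V M)

open Classical in
/-- the points of the cube of `x0` with free variables `U` satisfying the constraints of `Q` -/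
noncomputable def good (U : Finset V) (x0 : V → Bool) (Q : Finset (Fin M)) :
    Finset (V → Bool) :=
  univ.filter fun x => (∀ v, v ∉ U → x v = x0 v) ∧ ∀ j ∈ Q, ¬ P.bad j x

open Classical in
/-- those violating constraint `j` -/
noncomputable def gb (U : Finset V) (x0 : V → Bool) (Q : Finset (Fin M)) (j : Fin M) :
    Finset (V → Bool) :=
  (good P U x0 Q).filter fun x => P.bad j x

variable {P}

lemma mem_good {U : Finset V} {x0 : V → Bool} {Q : Finset (Fin M)} {x : V → Bool} :
    x ∈ good P U x0 Q ↔ (∀ v, v ∉ U → x v = x0 v) ∧ ∀ j ∈ Q, ¬ P.bad j x := by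
  simp [good]

lemma mem_gb {U : Finset V} {x0 : V → Bool} {Q : Finset (Fin M)} {j : Fin M} {x : V → Bool} :
    x ∈ gb P U x0 Q j ↔ x ∈ good P U x0 Q ∧ P.bad j x := by
  simp [gb]

lemma good_mono {U : Finset V} {x0 : V → Bool} {Q Q' : Finset (Fin M)} (h : Q ⊆ Q') :
    good P U x0 Q' ⊆ good P U x0 Q := by
  intro x hx
  rw [mem_good] at *
  exact ⟨hx.1, fun j hj => hx.2 j (h hj)⟩

lemma gb_mono {U : Finset V} {x0 : V → Bool} {Q Q' : Finset (Fin M)} (h : Q ⊆ Q') (j : Fin M) :
    gb P U x0 Q' j ⊆ gb P U x0 Q j := by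
  intro x hx
  rw [mem_gb] at *
  exact ⟨good_mono h hx.1, hx.2⟩

/-- independence -/
lemma indep {d : ℕ} (hS : P.Sparse d) {U : Finset V} {x0 : V → Bool} {Q : Finset (Fin M)}
    {j : Fin M} {Z : Finset V} (hZU : Z ⊆ U) (hZj : Z ⊆ P.T j) (hZ : Z.card = d)
    (hQ : ∀ i ∈ Q, Disjoint (P.T i) Z) :
    2 ^ d * (gb P U x0 Q j).card ≤ (good P U x0 Q).card := by
  classical
  rw [← hZ, ← card_powerset, ← card_product]
  refine Finset.card_le_card_of_injOn
    (fun p : Finset V × (V → Bool) => fun v => if v ∈ p.1 then !p.2 v else p.2 v) ?_ ?_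
  · rintro ⟨S, x⟩ hp
    rw [Finset.mem_coe, mem_product, mem_powerset, mem_gb] at hp
    obtain ⟨hSZ, hx, -⟩ := hp
    simp only at hSZ hx
    rw [Finset.mem_coe]
    rw [mem_good] at hx ⊢
    refine ⟨fun v hv => ?_, fun i hi hbad => ?_⟩
    · have : v ∉ S := fun h => hv (hZU (hSZ h))
      simp only [if_neg this]
      exact hx.1 v hv
    · refine hx.2 i hi (P.loc i _ _ (fun v hv => ?_) hbad)
      have : v ∉ S := fun h => (Finset.disjoint_left.1 (hQ i hi)) hv (hSZ h)
      simp only [if_neg this]
  · rintro ⟨S, x⟩ hp ⟨S', x'⟩ hp' heq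
    rw [Finset.mem_coe, mem_product, mem_powerset, mem_gb] at hp hp'
    obtain ⟨hSZ, hx, hbx⟩ := hp
    obtain ⟨hSZ', hx', hbx'⟩ := hp'
    simp only at hSZ hx hSZ' hx' hbx hbx' heq
    have hxx : x = x' := by
      refine hS j Z hZj hZ.le x x' (fun v hv => ?_) hbx hbx'
      have h1 := congrFun heq v
      have h2 : v ∉ S := fun h => hv (hSZ h)
      have h3 : v ∉ S' := fun h => hv (hSZ' h)
      simpa only [if_neg h2, if_neg h3] using h1
    subst hxx
    have hSS : S = S' := by
      ext v
      have h1 := congrFun heq v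
      by_cases h2 : v ∈ S <;> by_cases h3 : v ∈ S' <;> simp [h2, h3] at h1 ⊢
    rw [hSS]

lemma good_insert_le {U : Finset V} {x0 : V → Bool} {Q : Finset (Fin M)} {j : Fin M} :
    (good P U x0 Q).card ≤ (good P U x0 (insert j Q)).card + (gb P U x0 Q j).card := by
  classical
  refine (card_le_card ?_).trans (card_union_le _ _)
  intro x hx
  rw [mem_union]
  by_cases hb : P.bad j x
  · right
    rw [mem_gb]
    exact ⟨hx, hb⟩
  · left
    rw [mem_good] at *
    refine ⟨hx.1, fun i hi => ?_⟩
    rw [mem_insert] at hi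
    rcases hi with rfl | hi
    · exact hb
    · exact hx.2 i hi

/-- the local lemma, conditional probabilities -/
lemma lll_aux {d B : ℕ} (hS : P.Sparse d) (hB : 4 * B ≤ 2 ^ d) {U : Finset V}
    {x0 : V → Bool} {Q : Finset (Fin M)} (hd : ∀ j ∈ Q, d ≤ (P.T j ∩ U).card)
    (hdeg : ∀ j ∈ Q, (Q.filter fun i => ¬ Disjoint (P.T i) (P.T j ∩ U)).card ≤ B) :
    ∀ (m : ℕ) (Q' : Finset (Fin M)), Q'.card ≤ m → Q' ⊆ Q → ∀ j ∈ Q,
      2 ^ d * (gb P U x0 Q' j).card ≤ 2 * (good P U x0 Q').card := by
  classical
  intro m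
  induction m using Nat.strong_induction_on with
  | _ m ih =>
    intro Q' hm hQ' j hj
    set Γ := Q'.filter fun i => ¬ Disjoint (P.T i) (P.T j ∩ U) with hΓ
    set Q'' := Q'.filter fun i => Disjoint (P.T i) (P.T j ∩ U) with hQ''
    have hsplit : Q'' ∪ Γ = Q' := by
      rw [hQ'', hΓ]
      exact filter_union_filter_not_eq _ _
    have hdisj : Disjoint Q'' Γ := by
      rw [hQ'', hΓ]
      exact disjoint_filter_filter_not _ _ _
    have hΓB : Γ.card ≤ B := (card_le_card (filter_subset_filter _ hQ')).trans (hdeg j hj)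
    obtain ⟨Z, hZsub, hZcard⟩ := Finset.exists_subset_card_eq (hd j hj)
    have h1 : 2 ^ d * (gb P U x0 Q'' j).card ≤ (good P U x0 Q'').card := by
      refine indep hS (hZsub.trans inter_subset_right) (hZsub.trans inter_subset_left) hZcard ?_
      intro i hi
      rw [hQ'', mem_filter] at hi
      exact hi.2.mono_right hZsub
    have h2 : ∀ G : Finset (Fin M), G ⊆ Γ → 2 ^ d * (good P U x0 Q'').card ≤
        2 ^ d * (good P U x0 (Q'' ∪ G)).card + 2 * G.card * (good P U x0 Q'').card := by
      intro G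
      induction G using Finset.induction_on with
      | empty => intro _; simp
      | insert g G hg ihG =>
        intro hGΓ
        have hgΓ : g ∈ Γ := hGΓ (mem_insert_self _ _)
        have hGΓ' : G ⊆ Γ := (subset_insert _ _).trans hGΓ
        have h3 := ihG hGΓ'
        have hsub : Q'' ∪ G ⊆ Q' := by
          rw [← hsplit]
          exact union_subset_union_right hGΓ'
        have hlt : (Q'' ∪ G).card < Q'.card := by
          refine card_lt_card ⟨hsub, fun hc => ?_⟩
          have hgQ : g ∈ Q' := by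
            rw [← hsplit]
            exact mem_union_right _ hgΓ
          have := hc hgQ
          rw [mem_union] at this
          rcases this with h | h
          · exact (Finset.disjoint_left.1 hdisj) h hgΓ
          · exact hg h
        have hgQ : g ∈ Q := hQ' (mem_of_mem_filter g hgΓ)
        have h4 := ih (Q'' ∪ G).card (by omega) (Q'' ∪ G) le_rfl (hsub.trans hQ') g hgQ
        have h5 : (good P U x0 (Q'' ∪ G)).card ≤ (good P U x0 Q'').card :=
          card_le_card (good_mono subset_union_left)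
        have h6 := good_insert_le (P := P) (U := U) (x0 := x0) (Q := Q'' ∪ G) (j := g)
        have h7 : Q'' ∪ insert g G = insert g (Q'' ∪ G) := union_insert g Q'' G
        rw [h7, card_insert_of_notMem hg]
        nlinarith
    have h3 := h2 Γ subset_rfl
    rw [hsplit] at h3
    have h4 : (gb P U x0 Q' j).card ≤ (gb P U x0 Q'' j).card := by
      refine card_le_card (gb_mono ?_ j)
      rw [← hsplit]
      exact subset_union_left
    have hpow : 0 < 2 ^ d := by positivity
    have h5 : (good P U x0 Q'').card ≤ 2 * (good P U x0 Q').card := by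
      have : 2 * (2 ^ d * (good P U x0 Q'').card) ≤
          2 * (2 ^ d * (good P U x0 Q').card) + 2 ^ d * (good P U x0 Q'').card := by
        have h6 : 4 * Γ.card * (good P U x0 Q'').card ≤ 2 ^ d * (good P U x0 Q'').card := by
          refine Nat.mul_le_mul_right _ (le_trans ?_ hB)
          omega
        nlinarith
      have h7 : 2 ^ d * (good P U x0 Q'').card ≤ 2 ^ d * (2 * (good P U x0 Q').card) := by
        nlinarith
      exact Nat.le_of_mul_le_mul_left h7 hpow
    calc 2 ^ d * (gb P U x0 Q' j).card ≤ 2 ^ d * (gb P U x0 Q'' j).card :=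
          Nat.mul_le_mul_left _ h4
      _ ≤ (good P U x0 Q'').card := h1
      _ ≤ _ := h5

/-- the local lemma -/
theorem lll {d B : ℕ} (hS : P.Sparse d) (hB : 4 * B ≤ 2 ^ d) (hd2 : 4 ≤ 2 ^ d) {U : Finset V}
    (x0 : V → Bool) {Q : Finset (Fin M)} (hd : ∀ j ∈ Q, d ≤ (P.T j ∩ U).card)
    (hdeg : ∀ j ∈ Q, (Q.filter fun i => ¬ Disjoint (P.T i) (P.T j ∩ U)).card ≤ B) :
    ∃ x, (∀ v, v ∉ U → x v = x0 v) ∧ ∀ j ∈ Q, ¬ P.bad j x := by
  classical
  have key : ∀ G : Finset (Fin M), G ⊆ Q → 0 < (good P U x0 G).card := by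
    intro G
    induction G using Finset.induction_on with
    | empty =>
      intro _
      refine card_pos.2 ⟨x0, ?_⟩
      rw [mem_good]
      simp
    | insert g G hg ihG =>
      intro hGQ
      have h1 := ihG ((subset_insert _ _).trans hGQ)
      have h2 := lll_aux hS hB (x0 := x0) hd hdeg G.card G le_rfl
        ((subset_insert _ _).trans hGQ) g (hGQ (mem_insert_self _ _))
      have h3 := good_insert_le (P := P) (U := U) (x0 := x0) (Q := G) (j := g)
      by_contra hcon
      have h4 : (good P U x0 (insert g G)).card = 0 := by omega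
      have h5 : (good P U x0 G).card ≤ (gb P U x0 G g).card := by omega
      have h6 : 4 * (gb P U x0 G g).card ≤ 2 ^ d * (gb P U x0 G g).card :=
        Nat.mul_le_mul_right _ hd2
      omega
  obtain ⟨x, hx⟩ := card_pos.1 (key Q subset_rfl)
  rw [mem_good] at hx
  exact ⟨x, hx⟩

end lll

end Pool.Agent.H21.SR
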