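import Pool.Agent.H21.SR.Color

/-!
# Random scopes
-/

open Finset

namespace Pool.Agent.H21.SR

section mgf

variable {n k m M : ℕ} (e : Fin k → Fin m → Fin n)

/-- the number of incidences of the scopes of `Q` with `Y` -/
def inc (t : Fin M → Fin k → Fin m) (Q : Finset (Fin M)) (Y : Finset (Fin n)) : ℕ :=
  ∑ j ∈ Q, (univ.filter fun i => e i (t j i) ∈ Y).card

/-- the size of the part of `Y` in the range of `e` -/
def ry (Y : Finset (Fin n)) : ℕ := ∑ i, (univ.filter fun s => e i s ∈ Y).card

lemma ry_eq (he : ∀ i s i' s', e i s = e i' s' → i = i' ∧ s = s') (Y : Finset (Fin n)) :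
    ry e Y = (Y.filter fun v => ∃ i s, e i s = v).card := by
  classical
  have h1 : ry e Y = ((univ : Finset (Fin k × Fin m)).filter fun p => e p.1 p.2 ∈ Y).card := by
    unfold ry
    rw [← univ_product_univ, Finset.card_filter, Finset.sum_product]
    exact Finset.sum_congr rfl fun i _ => by rw [Finset.card_filter]
  rw [h1]
  refine Finset.card_bij (fun p _ => e p.1 p.2) ?_ ?_ ?_
  · intro p hp
    rw [mem_filter] at hp ⊢
    exact ⟨hp.2, p.1, p.2, rfl⟩
  · intro p _ q _ hpq
    obtain ⟨h2, h3⟩ := he _ _ _ _ hpq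
    exact Prod.ext h2 h3
  · intro v hv
    rw [mem_filter] at hv
    obtain ⟨hv, i, s, rfl⟩ := hv
    exact ⟨(i, s), mem_filter.2 ⟨mem_univ _, hv⟩, rfl⟩

lemma ry_le (he : ∀ i s i' s', e i s = e i' s' → i = i' ∧ s = s') (Y : Finset (Fin n)) :
    ry e Y ≤ Y.card := by
  rw [ry_eq e he]
  exact card_filter_le _ _

lemma le_ry (he : ∀ i s i' s', e i s = e i' s' → i = i' ∧ s = s') (Y : Finset (Fin n)) :
    Y.card + k * m ≤ ry e Y + n := by
  classical
  rw [ry_eq e he]
  have h1 : (univ.filter fun v : Fin n => ∃ i s, e i s = v).card = k * m := by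
    have : (univ : Finset (Fin k × Fin m)).card = k * m := by simp
    rw [← this]
    symm
    refine Finset.card_bij (fun p _ => e p.1 p.2) ?_ ?_ ?_
    · intro p _
      rw [mem_filter]
      exact ⟨mem_univ _, p.1, p.2, rfl⟩
    · intro p _ q _ hpq
      obtain ⟨h2, h3⟩ := he _ _ _ _ hpq
      exact Prod.ext h2 h3
    · intro v hv
      rw [mem_filter] at hv
      obtain ⟨-, i, s, rfl⟩ := hv
      exact ⟨(i, s), mem_univ _, rfl⟩
  have h2 := card_union_add_card_inter Y (univ.filter fun v : Fin n => ∃ i s, e i s = v)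
  have h3 : Y ∩ (univ.filter fun v : Fin n => ∃ i s, e i s = v) =
      Y.filter fun v => ∃ i s, e i s = v := by
    ext v; simp
  rw [h3, h1] at h2
  have h4 := card_le_univ (Y ∪ (univ.filter fun v : Fin n => ∃ i s, e i s = v))
  rw [Fintype.card_fin] at h4
  omega

/-- the generating function -/
lemma mgf (hm : 0 < m) (Q : Finset (Fin M)) (Y : Finset (Fin n)) {z : ℝ} (hz : 0 ≤ z) :
    ∑ t : Fin M → Fin k → Fin m, ∏ j ∈ Q, ∏ i, (if e i (t j i) ∈ Y then z else 1) ≤
      ((m : ℝ) ^ k) ^ M * Real.exp ((z - 1) * Q.card * (ry e Y : ℝ) / m) := by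
  classical
  have hmR : (0 : ℝ) < m := by exact_mod_cast hm
  have h1 : ∀ t : Fin M → Fin k → Fin m, ∏ j ∈ Q, ∏ i, (if e i (t j i) ∈ Y then z else 1) =
      ∏ j, (if j ∈ Q then ∏ i, (if e i (t j i) ∈ Y then z else 1) else 1) := by
    intro t
    rw [Finset.prod_ite_mem, univ_inter]
  simp only [h1]
  have h2 := Finset.prod_univ_sum (fun _ : Fin M => (univ : Finset (Fin k → Fin m)))
    (fun (j : Fin M) (r : Fin k → Fin m) =>
      (if j ∈ Q then ∏ i, (if e i (r i) ∈ Y then z else 1) else (1 : ℝ)))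
  rw [Fintype.piFinset_univ] at h2
  rw [← h2]
  have h3 : ∏ i : Fin k, ∑ s : Fin m, (if e i s ∈ Y then z else (1 : ℝ)) =
      ∑ r : Fin k → Fin m, ∏ i, (if e i (r i) ∈ Y then z else 1) := by
    have := Finset.prod_univ_sum (fun _ : Fin k => (univ : Finset (Fin m)))
      (fun (i : Fin k) (s : Fin m) => (if e i s ∈ Y then z else (1 : ℝ)))
    rwa [Fintype.piFinset_univ] at this
  have h4 : ∀ i : Fin k, ∑ s : Fin m, (if e i s ∈ Y then z else (1 : ℝ)) =
      m + (z - 1) * ((univ.filter fun s => e i s ∈ Y).card : ℝ) := by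
    intro i
    rw [Finset.sum_ite, Finset.sum_const, Finset.sum_const, nsmul_eq_mul, nsmul_eq_mul]
    have h5 : ((univ.filter fun s => e i s ∈ Y).card : ℝ) +
        ((univ.filter fun s => ¬ e i s ∈ Y).card : ℝ) = m := by
      have := Finset.card_filter_add_card_filter_not (s := (univ : Finset (Fin m)))
        (fun s => e i s ∈ Y)
      rw [card_univ, Fintype.card_fin] at this
      exact_mod_cast this
    have h6 : ((univ.filter fun s => ¬ e i s ∈ Y).card : ℝ) =
      m - ((univ.filter fun s => e i s ∈ Y).card : ℝ) := by linarith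
    rw [h6]
    ring
  have h5 : ∑ r : Fin k → Fin m, ∏ i, (if e i (r i) ∈ Y then z else (1 : ℝ)) ≤
      (m : ℝ) ^ k * Real.exp ((z - 1) * (ry e Y : ℝ) / m) := by
    rw [← h3]
    calc ∏ i : Fin k, ∑ s : Fin m, (if e i s ∈ Y then z else (1 : ℝ))
        ≤ ∏ i : Fin k, ((m : ℝ) *
            Real.exp ((z - 1) * ((univ.filter fun s => e i s ∈ Y).card : ℝ) / m)) := by
          refine Finset.prod_le_prod (fun i _ => Finset.sum_nonneg fun s _ => ?_) fun i _ => ?_
          · split_ifs
            · exact hz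
            · exact zero_le_one
          · rw [h4]
            have h6 := Real.add_one_le_exp
              ((z - 1) * ((univ.filter fun s => e i s ∈ Y).card : ℝ) / m)
            calc (m : ℝ) + (z - 1) * ((univ.filter fun s => e i s ∈ Y).card : ℝ)
                = m * ((z - 1) * ((univ.filter fun s => e i s ∈ Y).card : ℝ) / m + 1) := by
                  field_simp
                  ring
              _ ≤ _ := mul_le_mul_of_nonneg_left h6 hmR.le
      _ = (m : ℝ) ^ k * Real.exp ((z - 1) * (ry e Y : ℝ) / m) := by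
          rw [Finset.prod_mul_distrib, Finset.prod_const, card_univ, Fintype.card_fin,
            ← Real.exp_sum]
          congr 2
          unfold ry
          rw [← Finset.sum_div, ← Finset.mul_sum]
          push_cast
          rfl
  calc ∏ j : Fin M, ∑ r : Fin k → Fin m,
        (if j ∈ Q then ∏ i, (if e i (r i) ∈ Y then z else 1) else (1 : ℝ))
      ≤ ∏ j : Fin M, ((m : ℝ) ^ k *
          (if j ∈ Q then Real.exp ((z - 1) * (ry e Y : ℝ) / m) else 1)) := by
        refine Finset.prod_le_prod (fun j _ => Finset.sum_nonneg fun r _ => ?_) fun j _ => ?_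
        · split_ifs
          · refine Finset.prod_nonneg fun i _ => ?_
            split_ifs
            · exact hz
            · exact zero_le_one
          · exact zero_le_one
        · by_cases hj : j ∈ Q
          · simp only [if_pos hj]
            exact h5
          · simp only [if_neg hj]
            rw [Finset.sum_const, card_univ, Fintype.card_fun, Fintype.card_fin, Fintype.card_fin]
            simp
    _ = ((m : ℝ) ^ k) ^ M * Real.exp ((z - 1) * Q.card * (ry e Y : ℝ) / m) := by
        rw [Finset.prod_mul_distrib, Finset.prod_const, card_univ, Fintype.card_fin,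
          Finset.prod_ite_mem, univ_inter, Finset.prod_const, ← Real.exp_nat_mul]
        congr 2
        ring

/-- the generating function in terms of incidences -/
lemma prod_eq_inc (t : Fin M → Fin k → Fin m) (Q : Finset (Fin M)) (Y : Finset (Fin n)) (z : ℝ) :
    ∏ j ∈ Q, ∏ i, (if e i (t j i) ∈ Y then z else 1) = z ^ inc e t Q Y := by
  classical
  unfold inc
  rw [← Finset.prod_pow_eq_pow_sum]
  refine Finset.prod_congr rfl fun j _ => ?_
  rw [Finset.prod_ite, Finset.prod_const, Finset.prod_const_one, mul_one]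

end mgf

/-- the bound for binomial coefficients -/
lemma choose_le (M q : ℕ) (hq : 0 < q) :
    (M.choose q : ℝ) ≤ (Real.exp 1 * M / q) ^ q := by
  have hqR : (0 : ℝ) < q := by exact_mod_cast hq
  have h1 : (M.choose q : ℝ) ≤ (M : ℝ) ^ q / (q.factorial : ℝ) := Nat.choose_le_pow_div q M
  have h2 : (q : ℝ) ^ q / (q.factorial : ℝ) ≤ Real.exp q :=
    Real.pow_div_factorial_le_exp (q : ℝ) hqR.le q
  have hf : (0 : ℝ) < (q.factorial : ℝ) := by exact_mod_cast Nat.factorial_pos q
  have h3 : (1 : ℝ) / (q.factorial : ℝ) ≤ Real.exp q / (q : ℝ) ^ q := by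
    rw [le_div_iff₀ (by positivity), one_div_mul_eq_div]
    exact h2
  calc (M.choose q : ℝ) ≤ (M : ℝ) ^ q * (1 / (q.factorial : ℝ)) := by
        rw [mul_one_div]; exact h1
    _ ≤ (M : ℝ) ^ q * (Real.exp q / (q : ℝ) ^ q) := by gcongr
    _ = (Real.exp 1 * M / q) ^ q := by
        rw [div_pow, mul_pow, ← Real.exp_nat_mul, mul_one]
        ring

/-- weights of nonempty subsets -/
noncomputable def gw (M s : ℕ) : ℝ := if s = 0 then 0 else (1 / 4 : ℝ) ^ s / (M.choose s : ℝ)

lemma gw_nonneg (M s : ℕ) : 0 ≤ gw M s := by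
  unfold gw
  split_ifs
  · exact le_rfl
  · positivity

lemma sum_gw (M : ℕ) : ∑ Q : Finset (Fin M), gw M Q.card ≤ 1 / 3 := by
  have h1 := Finset.sum_powerset_apply_card (gw M) (x := (univ : Finset (Fin M)))
  rw [powerset_univ, card_univ, Fintype.card_fin] at h1
  rw [h1]
  have h2 : ∀ N : ℕ, N ≤ M + 1 → ∑ s ∈ range N, M.choose s • gw M s ≤
      1 / 3 - (1 / 3) * (1 / 4 : ℝ) ^ (N - 1) := by
    intro N
    induction N with
    | zero => intro _; simp
    | succ N ih =>
      intro hN
      rw [Finset.sum_range_succ]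
      have h3 := ih (by omega)
      rcases Nat.eq_zero_or_pos N with rfl | hpos
      · simp [gw]
      · have hch : (0 : ℝ) < (M.choose N : ℝ) := by
          exact_mod_cast Nat.choose_pos (by omega)
        have h4 : M.choose N • gw M N = (1 / 4 : ℝ) ^ N := by
          unfold gw
          rw [if_neg hpos.ne', nsmul_eq_mul]
          field_simp
        rw [h4]
        obtain ⟨a, rfl⟩ : ∃ a, N = a + 1 := ⟨N - 1, by omega⟩
        simp only [Nat.add_sub_cancel] at h3 ⊢
        have h5 : (1 / 4 : ℝ) ^ (a + 1) = (1 / 4) ^ a * (1 / 4) := pow_succ _ _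
        rw [h5]
        linarith
  refine (h2 (M + 1) le_rfl).trans ?_
  have : (0 : ℝ) ≤ (1 / 4 : ℝ) ^ (M + 1 - 1) := by positivity
  linarith

end Pool.Agent.H21.SR
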