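import Pool.Agent.H21.SR.Rand

/-!
# Random scopes: the union bound
-/

open Finset

namespace Pool.Agent.H21.SR

section key

variable {n m M b D d : ℕ}

/-- the parameter of the generating function -/
noncomputable def zz (m q y : ℕ) : ℝ := 2 + m / (min q y : ℕ)

lemma zz_ge_two (m q y : ℕ) : 2 ≤ zz m q y := by
  unfold zz
  have : (0 : ℝ) ≤ (m : ℝ) / (min q y : ℕ) := by positivity
  linarith

lemma zz_ge_q (m : ℕ) {q y : ℕ} (hq : 0 < q) (hy : 0 < y) : (m : ℝ) / q ≤ zz m q y := by
  unfold zz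
  have h1 : (0 : ℝ) < (min q y : ℕ) := by exact_mod_cast lt_min hq hy
  have h2 : ((min q y : ℕ) : ℝ) ≤ q := by exact_mod_cast min_le_left q y
  have h3 : (m : ℝ) / q ≤ (m : ℝ) / (min q y : ℕ) :=
    div_le_div_of_nonneg_left (Nat.cast_nonneg m) h1 h2
  linarith

lemma zz_ge_y (m : ℕ) {q y : ℕ} (hq : 0 < q) (hy : 0 < y) : (m : ℝ) / y ≤ zz m q y := by
  unfold zz
  have h1 : (0 : ℝ) < (min q y : ℕ) := by exact_mod_cast lt_min hq hy
  have h2 : ((min q y : ℕ) : ℝ) ≤ y := by exact_mod_cast min_le_right q y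
  have h3 : (m : ℝ) / y ≤ (m : ℝ) / (min q y : ℕ) :=
    div_le_div_of_nonneg_left (Nat.cast_nonneg m) h1 h2
  linarith

lemma key1 (hm : 0 < m) {q y : ℕ} (hq : 0 < q) (hy : 0 < y) (hqR : q ≤ 2 * b * m) :
    (zz m q y - 1) * q * y / m ≤ q + (2 * b + 1) * y := by
  have hmR : (0 : ℝ) < m := by exact_mod_cast hm
  have hqR' : (q : ℝ) ≤ 2 * b * m := by exact_mod_cast hqR
  have h1 : (0 : ℝ) < (min q y : ℕ) := by exact_mod_cast lt_min hq hy
  have hq0 : (0 : ℝ) < q := by exact_mod_cast hq
  have hy0 : (0 : ℝ) < y := by exact_mod_cast hy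
  have h2 : (q : ℝ) * y / (min q y : ℕ) ≤ q + y := by
    rw [div_le_iff₀ h1]
    rcases le_total q y with h | h
    · rw [min_eq_left h]
      nlinarith
    · rw [min_eq_right h]
      nlinarith
  have h3 : (zz m q y - 1) * q * y / m = q * y / m + q * y / (min q y : ℕ) := by
    unfold zz
    field_simp
    ring
  rw [h3]
  have h4 : (q : ℝ) * y / m ≤ 2 * b * y := by
    rw [div_le_iff₀ hmR]
    calc (q : ℝ) * y ≤ 2 * b * m * y := by gcongr
      _ = 2 * b * y * m := by ring
  linarith

lemma pow_split {z : ℝ} (hz : 2 ≤ z) {a c : ℝ} (hc : 0 ≤ c) (hcz : c ≤ z) {E : ℕ} (hE : 1 ≤ E)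
    (ha : a ≤ c * 2 ^ (E - 1)) : a ≤ z ^ E := by
  obtain ⟨E', rfl⟩ : ∃ E', E = E' + 1 := ⟨E - 1, by omega⟩
  rw [Nat.add_sub_cancel] at ha
  rw [pow_succ']
  refine ha.trans ?_
  gcongr

lemma key2 {q y : ℕ} (hq : 0 < q) (hy : 0 < y) (hDd : 1 ≤ 2 * D * d)
    (H1 : 4 * Real.exp 2 * M ≤ m * 2 ^ (2 * D * d - 1)) :
    4 ^ q * (M.choose q : ℝ) * Real.exp q ≤ zz m q y ^ (2 * D * d * q) := by
  have hq0 : (0 : ℝ) < q := by exact_mod_cast hq
  calc 4 ^ q * (M.choose q : ℝ) * Real.exp q
      ≤ 4 ^ q * (Real.exp 1 * M / q) ^ q * Real.exp q := by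
        gcongr
        exact choose_le M q hq
    _ = (4 * (Real.exp 1 * M / q) * Real.exp 1) ^ q := by
        rw [mul_pow, mul_pow, ← Real.exp_nat_mul, mul_one]
    _ = (4 * Real.exp 2 * M / q) ^ q := by
        congr 1
        have : Real.exp 2 = Real.exp 1 * Real.exp 1 := by rw [← Real.exp_add]; norm_num
        rw [this]
        ring
    _ ≤ (zz m q y ^ (2 * D * d)) ^ q := by
        refine pow_le_pow_left₀ (by positivity) ?_ q
        refine pow_split (zz_ge_two m q y) (by positivity) (zz_ge_q m hq hy) hDd ?_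
        rw [div_mul_eq_mul_div]
        gcongr
    _ = _ := by rw [← pow_mul]

lemma key3 {q y : ℕ} (hq : 0 < q) (hy : 0 < y) (hD : 1 ≤ D)
    (H2 : 4 * Real.exp (2 * b + 2) * n ≤ m * 2 ^ (D - 1)) :
    4 ^ y * (n.choose y : ℝ) * Real.exp ((2 * b + 1) * y) ≤ zz m q y ^ (D * y) := by
  have hy0 : (0 : ℝ) < y := by exact_mod_cast hy
  calc 4 ^ y * (n.choose y : ℝ) * Real.exp ((2 * b + 1) * y)
      ≤ 4 ^ y * (Real.exp 1 * n / y) ^ y * Real.exp ((2 * b + 1) * y) := by
        gcongr
        exact choose_le n y hy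
    _ = (4 * (Real.exp 1 * n / y) * Real.exp (2 * b + 1)) ^ y := by
        rw [mul_pow, mul_pow, ← Real.exp_nat_mul]
        congr 2
        ring
    _ = (4 * Real.exp (2 * b + 2) * n / y) ^ y := by
        congr 1
        have : Real.exp (2 * b + 2) = Real.exp 1 * Real.exp (2 * b + 1) := by
          rw [← Real.exp_add]
          congr 1
          ring
        rw [this]
        ring
    _ ≤ (zz m q y ^ D) ^ y := by
        refine pow_le_pow_left₀ (by positivity) ?_ y
        refine pow_split (zz_ge_two m q y) (by positivity) (zz_ge_y m hq hy) hD ?_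
        rw [div_mul_eq_mul_div]
        gcongr
    _ = _ := by rw [← pow_mul]

lemma key (hm : 0 < m) {q y : ℕ} (hq : 0 < q) (hy : 0 < y) (hqR : q ≤ 2 * b * m)
    (hqM : q ≤ M) (hyn : y ≤ n) (hD : 1 ≤ D) (hd : 1 ≤ d)
    (H1 : 4 * Real.exp 2 * M ≤ m * 2 ^ (2 * D * d - 1))
    (H2 : 4 * Real.exp (2 * b + 2) * n ≤ m * 2 ^ (D - 1)) :
    Real.exp ((zz m q y - 1) * q * y / m) / zz m q y ^ (D * (2 * d * q + y)) ≤
      gw M q * gw n y := by
  have hz := zz_ge_two m q y
  have hz0 : 0 < zz m q y := by linarith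
  have hDd : 1 ≤ 2 * D * d := by
    have : 1 ≤ D * d := Nat.mul_pos hD hd
    nlinarith
  have h1 := key2 (m := m) (M := M) hq hy hDd H1
  have h2 := key3 (m := m) (n := n) (q := q) (b := b) hq hy hD H2
  have h3 : Real.exp ((zz m q y - 1) * q * y / m) ≤ Real.exp q * Real.exp ((2 * b + 1) * y) := by
    rw [← Real.exp_add]
    exact Real.exp_le_exp.2 (key1 hm hq hy hqR)
  have hcM : (0 : ℝ) < (M.choose q : ℝ) := by exact_mod_cast Nat.choose_pos hqM
  have hcn : (0 : ℝ) < (n.choose y : ℝ) := by exact_mod_cast Nat.choose_pos hyn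
  unfold gw
  rw [if_neg hq.ne', if_neg hy.ne', div_le_iff₀ (by positivity)]
  have h4 : zz m q y ^ (D * (2 * d * q + y)) =
      zz m q y ^ (2 * D * d * q) * zz m q y ^ (D * y) := by
    rw [← pow_add]
    congr 1
    ring
  rw [h4]
  have h5 : (4 ^ q * (M.choose q : ℝ) * Real.exp q) *
      (4 ^ y * (n.choose y : ℝ) * Real.exp ((2 * b + 1) * y)) ≤
      zz m q y ^ (2 * D * d * q) * zz m q y ^ (D * y) :=
    mul_le_mul h1 h2 (by positivity) (by positivity)
  calc Real.exp ((zz m q y - 1) * q * y / m)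
      ≤ Real.exp q * Real.exp ((2 * b + 1) * y) := h3
    _ = (1 / 4) ^ q / (M.choose q : ℝ) * ((1 / 4) ^ y / (n.choose y : ℝ)) *
        ((4 ^ q * (M.choose q : ℝ) * Real.exp q) *
        (4 ^ y * (n.choose y : ℝ) * Real.exp ((2 * b + 1) * y))) := by
        have e1 : (1 / 4 : ℝ) ^ q * 4 ^ q = 1 := by
          rw [← mul_pow]; norm_num
        have e2 : (1 / 4 : ℝ) ^ y * 4 ^ y = 1 := by
          rw [← mul_pow]; norm_num
        have e3 : (1 / 4) ^ q / (M.choose q : ℝ) * ((1 / 4) ^ y / (n.choose y : ℝ)) *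
          ((4 ^ q * (M.choose q : ℝ) * Real.exp q) *
          (4 ^ y * (n.choose y : ℝ) * Real.exp ((2 * b + 1) * y))) =
          ((1 / 4 : ℝ) ^ q * 4 ^ q) * ((1 / 4 : ℝ) ^ y * 4 ^ y) *
          ((M.choose q : ℝ) / (M.choose q : ℝ)) * ((n.choose y : ℝ) / (n.choose y : ℝ)) *
          (Real.exp q * Real.exp ((2 * b + 1) * y)) := by ring
        rw [e3, e1, e2, div_self hcM.ne', div_self hcn.ne']
        ring
    _ ≤ _ := by gcongr

end key

/-- random scopes -/
theorem exists_scopes {n k m M b D d u u0 : ℕ} (e : Fin k → Fin m → Fin n)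
    (he : ∀ i s i' s', e i s = e i' s' → i = i' ∧ s = s') (hm : 0 < m) (hD : 1 ≤ D) (hd : 1 ≤ d)
    (H1 : 4 * Real.exp 2 * M ≤ m * 2 ^ (2 * D * d - 1))
    (H2 : 4 * Real.exp (2 * b + 2) * n ≤ m * 2 ^ (D - 1))
    (hu : u0 + n ≤ u + k * m)
    (H3 : (M.choose (b * m) : ℝ) * (n.choose u : ℝ) * Real.exp (-(b * u0)) ≤ 1 / 2) :
    ∃ t : Fin M → Fin k → Fin m,
      (∀ (Q : Finset (Fin M)) (Y : Finset (Fin n)), Q.Nonempty → Q.card ≤ 2 * b * m →
        Y.Nonempty → inc e t Q Y < D * (2 * d * Q.card + Y.card)) ∧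
      (∀ (J : Finset (Fin M)) (U : Finset (Fin n)), J.card = b * m → U.card = u →
        ∃ j ∈ J, ∃ i, e i (t j i) ∈ U) := by
  classical
  by_contra hcon
  have hmR : (0 : ℝ) < m := by exact_mod_cast hm
  set tot : ℝ := ((m : ℝ) ^ k) ^ M with htot
  have htot0 : 0 < tot := by positivity
  set A : (Fin M → Fin k → Fin m) → Finset (Fin M) → Finset (Fin n) → ℝ := fun t Q Y =>
    if Q.Nonempty ∧ Q.card ≤ 2 * b * m ∧ Y.Nonempty then
      zz m Q.card Y.card ^ inc e t Q Y / zz m Q.card Y.card ^ (D * (2 * d * Q.card + Y.card))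
    else 0 with hA
  set B : (Fin M → Fin k → Fin m) → Finset (Fin M) → Finset (Fin n) → ℝ := fun t J U =>
    (0 : ℝ) ^ inc e t J U with hB
  have hA0 : ∀ t Q Y, 0 ≤ A t Q Y := by
    intro t Q Y
    simp only [hA]
    split_ifs
    · have := zz_ge_two m Q.card Y.card
      positivity
    · exact le_rfl
  have hB0 : ∀ t J U, 0 ≤ B t J U := by
    intro t J U
    simp only [hB]
    positivity
  -- every choice is bad
  have hbad : ∀ t : Fin M → Fin k → Fin m, 1 ≤ ∑ Q, ∑ Y, A t Q Y +
      ∑ J ∈ powersetCard (b * m) univ, ∑ U ∈ powersetCard u univ, B t J U := by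
    intro t
    have hcon' : ¬ ((∀ (Q : Finset (Fin M)) (Y : Finset (Fin n)), Q.Nonempty →
        Q.card ≤ 2 * b * m → Y.Nonempty → inc e t Q Y < D * (2 * d * Q.card + Y.card)) ∧
      (∀ (J : Finset (Fin M)) (U : Finset (Fin n)), J.card = b * m → U.card = u →
        ∃ j ∈ J, ∃ i, e i (t j i) ∈ U)) := fun h => hcon ⟨t, h⟩
    rw [not_and_or] at hcon'
    have hsA : 0 ≤ ∑ Q, ∑ Y, A t Q Y :=
      Finset.sum_nonneg fun Q _ => Finset.sum_nonneg fun Y _ => hA0 t Q Y
    have hsB : 0 ≤ ∑ J ∈ powersetCard (b * m) univ, ∑ U ∈ powersetCard u univ, B t J U :=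
      Finset.sum_nonneg fun Q _ => Finset.sum_nonneg fun Y _ => hB0 t Q Y
    rcases hcon' with h | h
    · push Not at h
      obtain ⟨Q, Y, hQ, hQR, hY, hinc⟩ := h
      have h1 : 1 ≤ A t Q Y := by
        simp only [hA]
        rw [if_pos ⟨hQ, hQR, hY⟩, one_le_div (by
          have := zz_ge_two m Q.card Y.card
          positivity)]
        refine pow_le_pow_right₀ ?_ hinc
        have := zz_ge_two m Q.card Y.card
        linarith
      have h2 : A t Q Y ≤ ∑ Y, A t Q Y :=
        Finset.single_le_sum (f := fun Y => A t Q Y) (fun Y _ => hA0 t Q Y) (mem_univ Y)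
      have h3 : ∑ Y, A t Q Y ≤ ∑ Q, ∑ Y, A t Q Y :=
        Finset.single_le_sum (f := fun Q => ∑ Y, A t Q Y)
          (fun Q _ => Finset.sum_nonneg fun Y _ => hA0 t Q Y) (mem_univ Q)
      linarith
    · push Not at h
      obtain ⟨J, U, hJ, hU, hn⟩ := h
      have h1 : B t J U = 1 := by
        simp only [hB]
        have : inc e t J U = 0 := by
          unfold inc
          refine Finset.sum_eq_zero fun j hj => ?_
          rw [card_eq_zero, Finset.filter_eq_empty_iff]
          intro i _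
          exact hn j hj i
        rw [this, pow_zero]
      have hJm : J ∈ powersetCard (b * m) (univ : Finset (Fin M)) :=
        mem_powersetCard.2 ⟨subset_univ _, hJ⟩
      have hUm : U ∈ powersetCard u (univ : Finset (Fin n)) :=
        mem_powersetCard.2 ⟨subset_univ _, hU⟩
      have h2 : B t J U ≤ ∑ U ∈ powersetCard u univ, B t J U :=
        Finset.single_le_sum (f := fun U => B t J U) (fun U _ => hB0 t J U) hUm
      have h3 : ∑ U ∈ powersetCard u univ, B t J U ≤
          ∑ J ∈ powersetCard (b * m) univ, ∑ U ∈ powersetCard u univ, B t J U :=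
        Finset.single_le_sum (f := fun J => ∑ U ∈ powersetCard u univ, B t J U)
          (fun J _ => Finset.sum_nonneg fun U _ => hB0 t J U) hJm
      linarith
  -- the sums over `t`
  have hsumA : ∀ Q Y, ∑ t, A t Q Y ≤ tot * (gw M Q.card * gw n Y.card) := by
    intro Q Y
    by_cases hQY : Q.Nonempty ∧ Q.card ≤ 2 * b * m ∧ Y.Nonempty
    · have hz := zz_ge_two m Q.card Y.card
      have hz0 : 0 < zz m Q.card Y.card := by linarith
      have hq : 0 < Q.card := hQY.1.card_pos
      have hy : 0 < Y.card := hQY.2.2.card_pos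
      simp only [hA, if_pos hQY]
      rw [← Finset.sum_div]
      have h1 := mgf e hm Q Y hz0.le
      simp only [prod_eq_inc] at h1
      have hqM : Q.card ≤ M := by
        have := card_le_univ Q
        rwa [Fintype.card_fin] at this
      have hyn : Y.card ≤ n := by
        have := card_le_univ Y
        rwa [Fintype.card_fin] at this
      have h2 := key hm hq hy hQY.2.1 hqM hyn hD hd H1 H2
      have hry : (ry e Y : ℝ) ≤ Y.card := by exact_mod_cast ry_le e he Y
      calc (∑ t : Fin M → Fin k → Fin m, zz m Q.card Y.card ^ inc e t Q Y) /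
            zz m Q.card Y.card ^ (D * (2 * d * Q.card + Y.card))
          ≤ tot * Real.exp ((zz m Q.card Y.card - 1) * Q.card * (ry e Y : ℝ) / m) /
            zz m Q.card Y.card ^ (D * (2 * d * Q.card + Y.card)) := by gcongr
        _ ≤ tot * Real.exp ((zz m Q.card Y.card - 1) * Q.card * Y.card / m) /
            zz m Q.card Y.card ^ (D * (2 * d * Q.card + Y.card)) := by
            gcongr
            exact mul_nonneg (by linarith) (Nat.cast_nonneg _)
        _ = tot * (Real.exp ((zz m Q.card Y.card - 1) * Q.card * Y.card / m) /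
            zz m Q.card Y.card ^ (D * (2 * d * Q.card + Y.card))) := by ring
        _ ≤ _ := by gcongr
    · simp only [hA, if_neg hQY, Finset.sum_const_zero]
      exact mul_nonneg htot0.le (mul_nonneg (gw_nonneg _ _) (gw_nonneg _ _))
  have hsumB : ∀ J ∈ powersetCard (b * m) (univ : Finset (Fin M)),
      ∀ U ∈ powersetCard u (univ : Finset (Fin n)),
      ∑ t, B t J U ≤ tot * Real.exp (-(b * u0)) := by
    intro J hJ U hU
    rw [mem_powersetCard] at hJ hU
    have h1 := mgf e hm J U (z := 0) le_rfl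
    simp only [prod_eq_inc] at h1
    refine h1.trans ?_
    refine mul_le_mul_of_nonneg_left ?_ htot0.le
    apply Real.exp_le_exp.2
    rw [hJ.2]
    have h2 : (u0 : ℝ) ≤ ry e U := by
      have := le_ry e he U
      rw [hU.2] at this
      have : u0 ≤ ry e U := by omega
      exact_mod_cast this
    push_cast
    have h3 : ((0 : ℝ) - 1) * (b * m) * (ry e U : ℝ) / m = -(b * ry e U) := by
      field_simp
      ring
    rw [h3]
    have : (b : ℝ) * u0 ≤ b * ry e U := by gcongr
    linarith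
  have hfinal : tot ≤ tot * (1 / 9 + 1 / 2) := by
    calc tot = ∑ _t : Fin M → Fin k → Fin m, (1 : ℝ) := by
          rw [Finset.sum_const, card_univ, Fintype.card_fun, Fintype.card_fun, Fintype.card_fin,
            Fintype.card_fin, Fintype.card_fin, nsmul_eq_mul, mul_one]
          push_cast
          rfl
      _ ≤ ∑ t : Fin M → Fin k → Fin m, (∑ Q, ∑ Y, A t Q Y +
          ∑ J ∈ powersetCard (b * m) univ, ∑ U ∈ powersetCard u univ, B t J U) :=
          Finset.sum_le_sum fun t _ => hbad t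
      _ = ∑ Q, ∑ Y, ∑ t, A t Q Y +
          ∑ J ∈ powersetCard (b * m) univ, ∑ U ∈ powersetCard u univ, ∑ t, B t J U := by
          rw [Finset.sum_add_distrib]
          congr 1
          · rw [Finset.sum_comm]
            refine Finset.sum_congr rfl fun Q _ => ?_
            rw [Finset.sum_comm]
          · rw [Finset.sum_comm]
            refine Finset.sum_congr rfl fun Q _ => ?_
            rw [Finset.sum_comm]
      _ ≤ ∑ Q : Finset (Fin M), ∑ Y : Finset (Fin n), tot * (gw M Q.card * gw n Y.card) +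
          ∑ J ∈ powersetCard (b * m) (univ : Finset (Fin M)),
            ∑ U ∈ powersetCard u (univ : Finset (Fin n)), tot * Real.exp (-(b * u0)) := by
          refine add_le_add (Finset.sum_le_sum fun Q _ => Finset.sum_le_sum fun Y _ =>
            hsumA Q Y) (Finset.sum_le_sum fun J hJ => Finset.sum_le_sum fun U hU =>
            hsumB J hJ U hU)
      _ = tot * ((∑ Q : Finset (Fin M), gw M Q.card) * ∑ Y : Finset (Fin n), gw n Y.card) +
          tot * ((M.choose (b * m) : ℝ) * (n.choose u : ℝ) * Real.exp (-(b * u0))) := by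
          congr 1
          · rw [Finset.sum_mul_sum, Finset.mul_sum]
            refine Finset.sum_congr rfl fun Q _ => ?_
            rw [Finset.mul_sum]
          · rw [Finset.sum_const, Finset.sum_const, card_powersetCard, card_powersetCard,
              card_univ, card_univ, Fintype.card_fin, Fintype.card_fin, nsmul_eq_mul,
              nsmul_eq_mul]
            ring
      _ ≤ tot * (1 / 3 * (1 / 3)) + tot * (1 / 2) := by
          have h1 := sum_gw M
          have h2 := sum_gw n
          have h3 : 0 ≤ ∑ Y : Finset (Fin n), gw n Y.card :=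
            Finset.sum_nonneg fun Y _ => gw_nonneg _ _
          gcongr
      _ = tot * (1 / 9 + 1 / 2) := by ring
  nlinarith

end Pool.Agent.H21.SR
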