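import Pool.Agent.H21.SR.Cons
import Pool.Agent.H73.Xor.Res

/-!
# The CNF formula of a system, and the adversary's walk down a refutation
-/

open Finset Pool.Agent.H73.Xor

namespace Pool.Agent.H21.SR

variable {n M : ℕ}

/-- the clause forbidding the values of `X` on the scope of `j` -/
def Sys.rowCl (P : Sys (Fin n) M) (j : Fin M) (X : Fin n → Bool) : Clause n :=
  (P.T j).image fun v => (v, !X v)

open Classical in
/-- the CNF formula of the system -/
noncomputable def Sys.cnf (P : Sys (Fin n) M) : CNF n :=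
  (univ.filter fun p : Fin M × (Fin n → Bool) => P.bad p.1 p.2).image fun p => P.rowCl p.1 p.2

variable {P : Sys (Fin n) M}

lemma fal_rowCl {j : Fin M} {X Y : Fin n → Bool} :
    Fal X (P.rowCl j Y) ↔ ∀ v ∈ P.T j, X v = Y v := by
  unfold Fal Sys.rowCl
  constructor
  · intro h v hv
    have := h (v, !Y v) (mem_image.2 ⟨v, hv, rfl⟩)
    simpa using this
  · intro h l hl
    rw [mem_image] at hl
    obtain ⟨v, hv, rfl⟩ := hl
    simpa using h v hv

open Classical in
lemma mem_cnf {C : Clause n} : C ∈ P.cnf ↔ ∃ j X, P.bad j X ∧ P.rowCl j X = C := by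
  rw [Sys.cnf, mem_image]
  constructor
  · rintro ⟨⟨j, X⟩, h, rfl⟩
    exact ⟨j, X, (mem_filter.1 h).2, rfl⟩
  · rintro ⟨j, X, h, rfl⟩
    exact ⟨(j, X), mem_filter.2 ⟨mem_univ _, h⟩, rfl⟩

lemma cnf_kcnf {k : ℕ} (h : ∀ j, (P.T j).card ≤ k) : IsKCNF k P.cnf := by
  intro C hC
  rw [mem_cnf] at hC
  obtain ⟨j, y, -, rfl⟩ := hC
  exact card_image_le.trans (h j)

lemma cnf_unsat (h : ∀ x, ∃ j, P.bad j x) : Unsat P.cnf := by
  intro X
  obtain ⟨j, hj⟩ := h X
  refine ⟨P.rowCl j X, ?_, ?_⟩
  · rw [mem_cnf]
    exact ⟨j, X, hj, rfl⟩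
  · rw [← fal_iff, fal_rowCl]
    exact fun _ _ => rfl

lemma cnf_row {C : Clause n} (hC : C ∈ P.cnf) : ∃ j : Fin M, P.T j ⊆ vars C ∧
    ∀ X, Fal X C → P.bad j X := by
  rw [mem_cnf] at hC
  obtain ⟨j, Y, hY, rfl⟩ := hC
  refine ⟨j, ?_, ?_⟩
  · intro v hv
    rw [vars, mem_image]
    exact ⟨(v, !Y v), mem_image.2 ⟨v, hv, rfl⟩, rfl⟩
  · intro X hX
    rw [fal_rowCl] at hX
    exact P.loc j Y X (fun v hv => (hX v hv).symm) hY

section walk

variable {N : ℕ} (π : Refutation P.cnf N)

/-- the state of the walk -/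
structure St (w p t : ℕ) (S0 : Finset (Fin n)) (Xs : Fin n → Bool) (u : Fin N)
    (l : List (Fin n)) (X : Fin n → Bool) (S : Finset (Fin n)) (J : Finset (Fin M))
    (E : Finset (Fin n)) : Prop where
  path : π.Path π.root u l
  fal : Fal X (π.cl u)
  cons : P.Cons p (S0 ∪ vars (π.cl u)) X
  sub : vars (π.cl u) ⊆ l.toFinset
  Ssub : S ⊆ S0 ∪ l.toFinset
  S_eq : S = S0 ∪ l.toFinset ∨ n ≤ S.card + t
  Jp : J.card < p
  JE : (P.cov J \ S).card + E.card ≤ w * J.card
  dev : ∀ v ∈ S0 ∪ vars (π.cl u), v ∈ S → (v ∉ S0 → l.count v < 2) → X v ≠ Xs v → v ∈ E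

variable {π}

lemma leaf_contra {w p t : ℕ} {S0 : Finset (Fin n)} {Xs : Fin n → Bool} {u : Fin N}
    {l : List (Fin n)} {X : Fin n → Bool} {S : Finset (Fin n)} {J : Finset (Fin M)}
    {E : Finset (Fin n)} (h : St π w p t S0 Xs u l X S J E) (hu : π.just u = none) : False := by
  obtain ⟨C, hC, hCu⟩ := π.leaf u hu
  obtain ⟨j, hj, hbad⟩ := cnf_row hC
  have hvars : P.T j ⊆ vars (π.cl u) := hj.trans (image_subset_image hCu)
  obtain ⟨x, hx, hxj⟩ := h.cons {j} (by
    rw [card_singleton]
    have := h.Jp
    omega)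
  apply hxj j (mem_singleton_self j)
  refine P.loc j X x (fun v hv => ?_) (hbad X fun l hl => h.fal l (hCu hl))
  rw [hx v (mem_union_right _ (hvars hv))]

lemma vars_child {u : Fin N} {v0 : Fin n} {p q : Fin N} (hu : π.just u = some (v0, p, q))
    (e : Bool) : vars (π.cl (if e = true then q else p)) ⊆ insert v0 (vars (π.cl u)) := by
  refine vars_next π hu ?_
  cases e <;> simp

lemma path_child {u : Fin N} {v0 : Fin n} {p q : Fin N} (hu : π.just u = some (v0, p, q))
    {l : List (Fin n)} (hl : π.Path π.root u l) (e : Bool) :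
    π.Path π.root (if e = true then q else p) (l ++ [v0]) := by
  refine hl.append (.cons hu ?_ (.nil _))
  cases e <;> simp

/-- a modification of `X` at a new variable -/
lemma St.next {w p t : ℕ} {S0 : Finset (Fin n)} {Xs : Fin n → Bool} {u : Fin N}
    {l : List (Fin n)} {X : Fin n → Bool} {S : Finset (Fin n)} {J : Finset (Fin M)}
    {E : Finset (Fin n)} (h : St π w p t S0 Xs u l X S J E)
    {v0 : Fin n} {p' q' : Fin N} (hu : π.just u = some (v0, p', q'))
    (hv0 : v0 ∉ S0 ∪ vars (π.cl u)) (b : Bool)
    (hb : P.Cons p (insert v0 (S0 ∪ vars (π.cl u))) (Function.update X v0 b))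
    {S' : Finset (Fin n)} {J' : Finset (Fin M)} {E' : Finset (Fin n)}
    (hSS' : S' ⊆ insert v0 S) (hS'sub : S' ⊆ S0 ∪ (l ++ [v0]).toFinset)
    (hS'eq : S' = S0 ∪ (l ++ [v0]).toFinset ∨ n ≤ S'.card + t)
    (hJ' : J'.card < p) (hJE : (P.cov J' \ S').card + E'.card ≤ w * J'.card)
    (hEE' : E ⊆ E') (hv0E : v0 ∈ S' → (v0 ∉ S0 → (l ++ [v0]).count v0 < 2) → b ≠ Xs v0 → v0 ∈ E') :
    St π w p t S0 Xs (if (Function.update X v0 b) v0 = true then q' else p') (l ++ [v0])
      (Function.update X v0 b) S' J' E' := by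
  have hvc := vars_child hu ((Function.update X v0 b) v0)
  have hfal : Fal (Function.update X v0 b) (π.cl u) := by
    intro l' hl'
    have hne : l'.1 ≠ v0 := by
      rintro rfl
      exact hv0 (mem_union_right _ (mem_image.2 ⟨l', hl', rfl⟩))
    rw [Function.update_of_ne hne]
    exact h.fal l' hl'
  refine ⟨path_child hu h.path _, fal_next π hu hfal, hb.mono ?_, ?_, hS'sub, hS'eq, hJ', hJE, ?_⟩
  · intro v hv
    rw [mem_union] at hv
    rw [mem_insert, mem_union]
    rcases hv with hv | hv
    · exact Or.inr (Or.inl hv)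
    · have := hvc hv
      rw [mem_insert] at this
      tauto
  · intro v hv
    have := hvc hv
    rw [mem_insert] at this
    rw [List.mem_toFinset, List.mem_append, List.mem_singleton]
    rcases this with rfl | h2
    · exact Or.inr rfl
    · exact Or.inl (List.mem_toFinset.1 (h.sub h2))
  · intro v hv hvS hcount hne
    by_cases hvv : v = v0
    · subst hvv
      refine hv0E hvS hcount ?_
      simpa using hne
    · rw [Function.update_of_ne hvv] at hne
      refine hEE' (h.dev v ?_ ?_ ?_ hne)
      · rw [mem_union] at hv ⊢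
        rcases hv with hv | hv
        · exact Or.inl hv
        · exact Or.inr (mem_of_mem_insert_of_ne (hvc hv) hvv)
      · exact mem_of_mem_insert_of_ne (hSS' hvS) hvv
      · intro hvS0
        have := hcount hvS0
        rw [List.count_append] at this
        omega

lemma step {R w p u' : ℕ} (hF : P.Flex R w) (hC : P.Covering p u') (hR : 2 * p ≤ R)
    {S0 : Finset (Fin n)} {Xs : Fin n → Bool} {u : Fin N}
    {l : List (Fin n)} {X : Fin n → Bool} {S : Finset (Fin n)} {J : Finset (Fin M)}
    {E : Finset (Fin n)} (h : St π w p (w * p + u' + 1) S0 Xs u l X S J E)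
    (hA : (S0 ∪ vars (π.cl u)).card + (w * p + u' + 1) ≤ n)
    {v0 : Fin n} {p' q' : Fin N} (hu : π.just u = some (v0, p', q')) :
    ∃ X' S' J' E', St π w p (w * p + u' + 1) S0 Xs (if X' v0 = true then q' else p') (l ++ [v0])
      X' S' J' E' := by
  classical
  have hlmem : (l ++ [v0]).toFinset = insert v0 l.toFinset := by
    ext v; simp
  by_cases hv0 : v0 ∈ S0 ∪ vars (π.cl u)
  · -- the variable is known
    have hv0l : v0 ∈ S0 ∪ l.toFinset := by
      rw [mem_union] at hv0 ⊢
      exact hv0.imp_right fun h' => h.sub h'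
    have hll : S0 ∪ (l ++ [v0]).toFinset = S0 ∪ l.toFinset := by
      rw [hlmem, union_insert, insert_eq_self.2 hv0l]
    refine ⟨X, S, J, E, ?_⟩
    have hvc := vars_child hu (X v0)
    have hA' : S0 ∪ vars (π.cl (if X v0 = true then q' else p')) ⊆ S0 ∪ vars (π.cl u) := by
      intro v hv
      rw [mem_union] at hv
      rcases hv with hv | hv
      · exact mem_union_left _ hv
      · have := hvc hv
        rw [mem_insert] at this
        rcases this with rfl | h2
        · exact hv0
        · exact mem_union_right _ h2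
    refine ⟨path_child hu h.path _, fal_next π hu h.fal, h.cons.mono hA', ?_, ?_, ?_, h.Jp, h.JE,
      ?_⟩
    · intro v hv
      have := hvc hv
      rw [mem_insert] at this
      rw [List.mem_toFinset, List.mem_append, List.mem_singleton]
      rcases this with rfl | h2
      · exact Or.inr rfl
      · exact Or.inl (List.mem_toFinset.1 (h.sub h2))
    · rw [hll]; exact h.Ssub
    · rw [hll]; exact h.S_eq
    · intro v hv hvS hcount hne
      refine h.dev v (hA' hv) hvS (fun hvS0 => ?_) hne
      have := hcount hvS0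
      rw [List.count_append] at this
      omega
  · obtain ⟨b, hb⟩ := exists_answer hF hC hR (A := S0 ∪ vars (π.cl u)) (X := X)
      (by rw [Fintype.card_fin]; omega) h.cons v0
    by_cases hv0l : v0 ∈ S0 ∪ l.toFinset
    · -- the variable is resolved on again
      have hv0S0 : v0 ∉ S0 := fun hc => hv0 (mem_union_left _ hc)
      have hv0l' : v0 ∈ l := by
        rw [mem_union, List.mem_toFinset] at hv0l
        exact hv0l.resolve_left hv0S0
      have hll : S0 ∪ (l ++ [v0]).toFinset = S0 ∪ l.toFinset := by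
        rw [hlmem, union_insert, insert_eq_self.2 hv0l]
      refine ⟨Function.update X v0 b, S, J, E, h.next hu hv0 b hb (subset_insert _ _) ?_ ?_ h.Jp
        h.JE subset_rfl ?_⟩
      · rw [hll]; exact h.Ssub
      · rw [hll]; exact h.S_eq
      · intro _ hcount _
        exfalso
        have h1 := hcount hv0S0
        rw [List.count_append] at h1
        have h2 : 0 < l.count v0 := List.count_pos_iff.2 hv0l'
        have h3 : [v0].count v0 = 1 := by simp
        omega
    · have hv0S : v0 ∉ S := fun hc => hv0l (h.Ssub hc)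
      by_cases hS : S = S0 ∪ l.toFinset ∧ S.card + (w * p + u' + 1) ≤ n
      · obtain ⟨hSeq, hScard⟩ := hS
        have hAS : S0 ∪ vars (π.cl u) ⊆ S := by
          rw [hSeq]
          exact union_subset_union_right h.sub
        have hnew : insert v0 S = S0 ∪ (l ++ [v0]).toFinset := by
          rw [hlmem, union_insert, hSeq]
        rcases adv_step hF hC hR hAS (by rw [Fintype.card_fin]; omega) h.cons hv0S h.Jp h.JE
          (Xs v0) with hb' | ⟨hb', J', hJ', hJE'⟩
        · refine ⟨_, insert v0 S, J, E, h.next hu hv0 (Xs v0) hb' subset_rfl hnew.le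
            (Or.inl hnew) h.Jp ?_ subset_rfl ?_⟩
          · refine le_trans (Nat.add_le_add_right (card_le_card ?_) _) h.JE
            exact sdiff_subset_sdiff subset_rfl (subset_insert _ _)
          · intro _ _ hne
            exact absurd rfl hne
        · refine ⟨_, insert v0 S, J', insert v0 E, h.next hu hv0 (!Xs v0) hb' subset_rfl hnew.le
            (Or.inl hnew) hJ' ?_ (subset_insert _ _) ?_⟩
          · have := card_insert_le v0 E
            omega
          · intro _ _ _
            exact mem_insert_self _ _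
      · have hfat : n ≤ S.card + (w * p + u' + 1) := by
          rcases h.S_eq with h1 | h1
          · have : ¬ (S.card + (w * p + u' + 1) ≤ n) := fun hc => hS ⟨h1, hc⟩
            omega
          · exact h1
        refine ⟨Function.update X v0 b, S, J, E, h.next hu hv0 b hb (subset_insert _ _) ?_
          (Or.inr hfat) h.Jp h.JE subset_rfl ?_⟩
        · refine h.Ssub.trans (union_subset_union_right ?_)
          rw [hlmem]
          exact subset_insert _ _
        · intro hc
          exact absurd hc hv0S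

/-- the conclusion of the walk -/
def Concl (π : Refutation P.cnf N) (t e : ℕ) (S0 : Finset (Fin n)) (Xs : Fin n → Bool) : Prop :=
  ∃ (u : Fin N) (l : List (Fin n)) (X : Fin n → Bool) (E : Finset (Fin n)),
    π.Path π.root u l ∧ Fal X (π.cl u) ∧ (S0 ∪ vars (π.cl u))ᶜ.card ≤ t ∧ E.card ≤ e ∧
    ∀ v ∈ vars (π.cl u), X v ≠ Xs v → v ∈ E ∨ (v ∉ S0 ∧ 2 ≤ l.count v)

lemma St.concl {w p t : ℕ} {S0 : Finset (Fin n)} {Xs : Fin n → Bool} {u : Fin N}
    {l : List (Fin n)} {X : Fin n → Bool} {S : Finset (Fin n)} {J : Finset (Fin M)}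
    {E : Finset (Fin n)} (h : St π w p t S0 Xs u l X S J E)
    (hA : n < (S0 ∪ vars (π.cl u)).card + t) : Concl π t (w * p + t) S0 Xs := by
  classical
  refine ⟨u, l, X, E ∪ (vars (π.cl u) \ S), h.path, h.fal, ?_, ?_, ?_⟩
  · have := card_compl_add_card (S0 ∪ vars (π.cl u))
    rw [Fintype.card_fin] at this
    omega
  · refine (card_union_le _ _).trans (Nat.add_le_add ?_ ?_)
    · have h1 := h.JE
      have h2 : w * J.card ≤ w * p := Nat.mul_le_mul_left _ h.Jp.le
      omega
    · rcases h.S_eq with h1 | h1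
      · have : vars (π.cl u) \ S = ∅ := by
          rw [sdiff_eq_empty_iff_subset, h1]
          exact h.sub.trans subset_union_right
        rw [this]
        simp
      · have h2 : vars (π.cl u) \ S ⊆ Sᶜ := by
          intro v hv
          rw [mem_compl]
          exact (mem_sdiff.1 hv).2
        have h3 := card_le_card h2
        have h4 := card_compl_add_card S
        rw [Fintype.card_fin] at h4
        omega
  · intro v hv hne
    by_cases hvS : v ∈ S
    · by_cases hc : v ∉ S0 → l.count v < 2
      · exact Or.inl (mem_union_left _ (h.dev v (mem_union_right _ hv) hvS hc hne))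
      · push Not at hc
        exact Or.inr hc
    · exact Or.inl (mem_union_right _ (mem_sdiff.2 ⟨hv, hvS⟩))

lemma walk_aux {R w p u' : ℕ} (hF : P.Flex R w) (hC : P.Covering p u') (hR : 2 * p ≤ R)
    {S0 : Finset (Fin n)} {Xs : Fin n → Bool} : ∀ (m : ℕ) (u : Fin N) (l : List (Fin n))
    (X : Fin n → Bool) (S : Finset (Fin n)) (J : Finset (Fin M)) (E : Finset (Fin n)),
    u.1 ≤ m → St π w p (w * p + u' + 1) S0 Xs u l X S J E →
    Concl π (w * p + u' + 1) (w * p + (w * p + u' + 1)) S0 Xs := by
  classical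
  intro m
  induction m with
  | zero =>
    intro u l X S J E hm h
    by_cases hA : (S0 ∪ vars (π.cl u)).card + (w * p + u' + 1) ≤ n
    · rcases hu : π.just u with _ | ⟨v0, p', q'⟩
      · exact (leaf_contra h hu).elim
      · obtain ⟨hp, -, -, -⟩ := π.step u v0 p' q' hu
        have : p'.1 < u.1 := hp
        omega
    · exact h.concl (not_le.1 hA)
  | succ m ih =>
    intro u l X S J E hm h
    by_cases hA : (S0 ∪ vars (π.cl u)).card + (w * p + u' + 1) ≤ n
    · rcases hu : π.just u with _ | ⟨v0, p', q'⟩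
      · exact (leaf_contra h hu).elim
      · obtain ⟨hp, hq, -, -⟩ := π.step u v0 p' q' hu
        have hp' : p'.1 < u.1 := hp
        have hq' : q'.1 < u.1 := hq
        obtain ⟨X', S', J', E', h'⟩ := step hF hC hR h hA hu
        refine ih _ _ X' S' J' E' ?_ h'
        split_ifs <;> omega
    · exact h.concl (not_le.1 hA)

/-- the initial values on a set of variables -/
lemma initial {R w p u' : ℕ} (hF : P.Flex R w) (hC : P.Covering p u') (hR : 2 * p ≤ R)
    (hp : 0 < p) (hroot : P.Cons p ∅ fun _ => false) (Xs : Fin n → Bool) (S : Finset (Fin n)) :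
    S.card + (w * p + u' + 1) ≤ n + 1 →
    ∃ (X : Fin n → Bool) (J : Finset (Fin M)) (E : Finset (Fin n)), P.Cons p S X ∧ J.card < p ∧
      (P.cov J \ S).card + E.card ≤ w * J.card ∧ ∀ v ∈ S, X v ≠ Xs v → v ∈ E := by
  classical
  induction S using Finset.induction_on with
  | empty =>
    intro _
    refine ⟨fun _ => false, ∅, ∅, hroot, by simpa using hp, by simp [Sys.cov], by simp⟩
  | insert v S hv ih =>
    intro hcard
    rw [card_insert_of_notMem hv] at hcard
    obtain ⟨X, J, E, h1, h2, h3, h4⟩ := ih (by omega)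
    rcases adv_step hF hC hR subset_rfl (by rw [Fintype.card_fin]; omega) h1 hv h2 h3 (Xs v) with
      hb | ⟨hb, J', hJ', hJE'⟩
    · refine ⟨_, J, E, hb, h2, ?_, ?_⟩
      · refine le_trans (Nat.add_le_add_right (card_le_card ?_) _) h3
        exact sdiff_subset_sdiff subset_rfl (subset_insert _ _)
      · intro v' hv' hne
        by_cases hvv : v' = v
        · subst hvv
          simp at hne
        · rw [Function.update_of_ne hvv] at hne
          exact h4 v' (mem_of_mem_insert_of_ne hv' hvv) hne
    · refine ⟨_, J', insert v E, hb, hJ', ?_, ?_⟩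
      · have := card_insert_le v E
        omega
      · intro v' hv' hne
        by_cases hvv : v' = v
        · subst hvv
          exact mem_insert_self _ _
        · rw [Function.update_of_ne hvv] at hne
          exact mem_insert_of_mem (h4 v' (mem_of_mem_insert_of_ne hv' hvv) hne)

/-- the walk of the adversary with restricted variables `S0` and hidden assignment `Xs` -/
theorem walk_main {R w p u' : ℕ} (hF : P.Flex R w) (hC : P.Covering p u') (hR : 2 * p ≤ R)
    (hp : 0 < p) (hw : ∀ j, w ≤ (P.T j).card) (S0 : Finset (Fin n)) (Xs : Fin n → Bool) :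
    Concl π (w * p + u' + 1) (w * p + (w * p + u' + 1)) S0 Xs := by
  classical
  have hvars : vars (π.cl π.root) = ∅ := by
    rw [π.root_empty]; rfl
  by_cases hS0 : S0.card + (w * p + u' + 1) ≤ n
  · have hroot : P.Cons p ∅ fun _ => false := by
      intro I hI
      obtain ⟨x, -, hx⟩ := hF I (by omega) univ (fun j _ => by
        rw [inter_univ]; exact hw j) fun _ => false
      exact ⟨x, by simp, hx⟩
    obtain ⟨X, J, E, h1, h2, h3, h4⟩ := initial hF hC hR hp hroot Xs S0 (by omega)
    refine walk_aux hF hC hR N π.root [] X S0 J E π.root.2.le ⟨.nil _, ?_, ?_, ?_, ?_, ?_, h2, h3,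
      ?_⟩
    · intro l hl
      rw [π.root_empty] at hl
      simp at hl
    · rw [hvars, union_empty]
      exact h1
    · rw [hvars]; simp
    · simp
    · left; simp
    · intro v hv _ _ hne
      rw [hvars, union_empty] at hv
      exact h4 v hv hne
  · refine ⟨π.root, [], fun _ => false, ∅, .nil _, ?_, ?_, by simp, ?_⟩
    · intro l hl
      rw [π.root_empty] at hl
      simp at hl
    · rw [hvars, union_empty]
      have := card_compl_add_card S0
      rw [Fintype.card_fin] at this
      omega
    · intro v hv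
      rw [hvars] at hv
      simp at hv

end walk

end Pool.Agent.H21.SR
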